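import Mathlib
import Pool.Agent.KS6_82.Crv.Sup

/-!
# Scalar recursions with respect to a sequence of slowly varying absolute value
-/

set_option autoImplicit false

namespace Pool.Agent.SP82

open Filter Topology Asymptotics Pool.Agent.KS6_82.Crv

/-- comparison forward in time -/
lemma forward {y a : ℕ → ℝ} {θ ρ C : ℝ} (hθ : 0 ≤ θ) (hθρ : θ < ρ) (hC : 0 ≤ C)
    (ha : ∀ᶠ n in atTop, 0 < a n) (h1 : ∀ᶠ n in atTop, y (n + 1) ≤ θ * y n + C * a n)
    (h2 : ∀ᶠ n in atTop, ρ * a n ≤ a (n + 1)) : ∃ K, 0 ≤ K ∧ ∀ᶠ n in atTop, y n ≤ K * a n := by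
  obtain ⟨N, hN⟩ := eventually_atTop.1 (ha.and (h1.and h2))
  set K := max (y N / a N) (C / (ρ - θ)) with hK
  have hd : 0 < ρ - θ := by linarith
  have hK2 : C ≤ K * (ρ - θ) := by
    rw [← div_le_iff₀ hd]
    exact le_max_right _ _
  have hK0 : 0 ≤ K := (div_nonneg hC hd.le).trans (le_max_right _ _)
  refine ⟨K, hK0, eventually_atTop.2 ⟨N, fun n hn => ?_⟩⟩
  induction n, hn using Nat.le_induction with
  | base =>
    rw [← div_le_iff₀ (hN N le_rfl).1]
    exact le_max_left _ _
  | succ n hn ih =>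
    obtain ⟨h3, h4, h5⟩ := hN n hn
    have h6 : θ * y n ≤ θ * (K * a n) := mul_le_mul_of_nonneg_left ih hθ
    have h7 : C * a n ≤ K * (ρ - θ) * a n := mul_le_mul_of_nonneg_right hK2 h3.le
    have h8 : K * (ρ * a n) ≤ K * a (n + 1) := mul_le_mul_of_nonneg_left h5 hK0
    calc y (n + 1) ≤ θ * y n + C * a n := h4
      _ ≤ θ * (K * a n) + K * (ρ - θ) * a n := add_le_add h6 h7
      _ = K * (ρ * a n) := by ring
      _ ≤ K * a (n + 1) := h8

/-- comparison backward in time -/
lemma backward {y a : ℕ → ℝ} {θ ρ C B : ℝ} (hθ : 0 ≤ θ) (hθ1 : θ < 1) (hρ : 0 ≤ ρ)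
    (hθρ : θ * ρ < 1) (hC : 0 ≤ C) (hy : ∀ᶠ n in atTop, y n ≤ B)
    (ha : ∀ᶠ n in atTop, 0 ≤ a n) (h1 : ∀ᶠ n in atTop, y n ≤ θ * y (n + 1) + C * a n)
    (h2 : ∀ᶠ n in atTop, a (n + 1) ≤ ρ * a n) : ∃ K, 0 ≤ K ∧ ∀ᶠ n in atTop, y n ≤ K * a n := by
  obtain ⟨N, hN⟩ := eventually_atTop.1 (hy.and (ha.and (h1.and h2)))
  have hd : 0 < 1 - θ * ρ := by linarith
  set K := C / (1 - θ * ρ) with hK
  have hK2 : K * (1 - θ * ρ) = C := div_mul_cancel₀ _ hd.ne'
  have hK0 : 0 ≤ K := div_nonneg hC hd.le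
  refine ⟨K, hK0, eventually_atTop.2 ⟨N, fun n hn => ?_⟩⟩
  have ha' : ∀ k, a (n + k) ≤ ρ ^ k * a n := by
    intro k
    induction k with
    | zero => simp
    | succ k ih =>
      have h3 := (hN (n + k) (by omega)).2.2.2
      calc a (n + k + 1) ≤ ρ * a (n + k) := h3
        _ ≤ ρ * (ρ ^ k * a n) := mul_le_mul_of_nonneg_left ih hρ
        _ = ρ ^ (k + 1) * a n := by ring
  have key : ∀ k : ℕ, y n ≤ θ ^ k * y (n + k) + K * (1 - (θ * ρ) ^ k) * a n := by
    intro k
    induction k with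
    | zero => simp
    | succ k ih =>
      have h3 := (hN (n + k) (by omega)).2.2.1
      have h4 : θ ^ k * y (n + k) ≤ θ ^ k * (θ * y (n + k + 1) + C * (ρ ^ k * a n)) := by
        apply mul_le_mul_of_nonneg_left _ (pow_nonneg hθ k)
        have := mul_le_mul_of_nonneg_left (ha' k) hC
        linarith
      refine ih.trans ((add_le_add_left h4 _).trans (le_of_eq ?_))
      rw [← hK2]
      rw [mul_pow, mul_pow]
      rw [show n + (k + 1) = n + k + 1 by ring]
      ring
  have h3 : ∀ k : ℕ, y n ≤ θ ^ k * B + K * a n := by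
    intro k
    refine (key k).trans ?_
    have h4 := mul_le_mul_of_nonneg_left (hN (n + k) (by omega)).1 (pow_nonneg hθ k)
    have h5 : K * (1 - (θ * ρ) ^ k) * a n ≤ K * a n := by
      apply mul_le_mul_of_nonneg_right _ (hN n hn).2.1
      apply mul_le_of_le_one_right hK0
      have := pow_nonneg (mul_nonneg hθ hρ) k
      linarith
    linarith
  have h4 : Tendsto (fun k : ℕ => θ ^ k * B + K * a n) atTop (𝓝 (0 * B + K * a n)) :=
    ((tendsto_pow_atTop_nhds_zero_of_lt_one hθ hθ1).mul_const B).add_const _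
  rw [zero_mul, zero_add] at h4
  exact ge_of_tendsto' h4 h3

variable {Q : ℕ → ℂ}

lemma poly_lead (hQ : Tendsto Q atTop (𝓝 0)) (hQ0 : ∀ᶠ n in atTop, Q n ≠ 0) :
    ∀ (k : ℕ) (P : Polynomial ℂ), ((fun n => P.eval (Q n)) =O[atTop] fun n => Q n ^ k) →
      ∃ β : ℂ, (fun n => P.eval (Q n) - β * Q n ^ k) =O[atTop] fun n => Q n ^ (k + 1) := by
  intro k
  induction k with
  | zero =>
    intro P _
    refine ⟨P.coeff 0, ?_⟩
    have h1 : (fun n => P.eval (Q n) - P.coeff 0 * Q n ^ 0) = fun n => P.divX.eval (Q n) * Q n := by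
      funext n
      nth_rewrite 1 [← Polynomial.divX_mul_X_add P]
      simp
    rw [h1]
    have h2 := (poly_bdd hQ P.divX).mul (isBigO_refl Q atTop)
    simpa using h2
  | succ k ih =>
    intro P hP
    have h0 : P.coeff 0 = 0 := by
      have h1 : Tendsto (fun n => P.eval (Q n)) atTop (𝓝 (P.eval 0)) :=
        (P.continuous.tendsto 0).comp hQ
      have h2 : Tendsto (fun n => P.eval (Q n)) atTop (𝓝 0) := by
        apply hP.trans_tendsto
        have := hQ.pow (k + 1)
        simpa using this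
      rw [Polynomial.coeff_zero_eq_eval_zero]
      exact tendsto_nhds_unique h1 h2
    have h1 : ∀ n, P.eval (Q n) = P.divX.eval (Q n) * Q n := by
      intro n
      nth_rewrite 1 [← Polynomial.divX_mul_X_add P]
      rw [h0]
      simp
    have h2 : (fun n => P.divX.eval (Q n)) =O[atTop] fun n => Q n ^ k := by
      obtain ⟨C, hC⟩ := hP.bound
      refine IsBigO.of_bound C ?_
      filter_upwards [hC, hQ0] with n h3 h4
      rw [h1, norm_mul, pow_succ, norm_mul, ← mul_assoc] at h3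
      exact le_of_mul_le_mul_right h3 (norm_pos_iff.2 h4)
    obtain ⟨β, hβ⟩ := ih _ h2
    refine ⟨β, ?_⟩
    have h3 := hβ.mul (isBigO_refl Q atTop)
    refine (h3.congr_left fun n => ?_).congr_right fun n => ?_
    · rw [h1]
      ring
    · ring

lemma qe_lead (hQ : Tendsto Q atTop (𝓝 0)) (hQ0 : ∀ᶠ n in atTop, Q n ≠ 0) {k : ℕ} {b : ℕ → ℂ}
    (hb : QE Q (k + 1) b) (hb' : b =O[atTop] fun n => Q n ^ k) :
    ∃ β : ℂ, (fun n => b n - β * Q n ^ k) =O[atTop] fun n => Q n ^ (k + 1) := by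
  obtain ⟨P, hP⟩ := hb
  have h1 : (fun n => P.eval (Q n)) =O[atTop] fun n => Q n ^ k := by
    have := hb'.sub (hP.trans (o_pow_mono hQ (Nat.le_succ k)))
    simpa using this
  obtain ⟨β, hβ⟩ := poly_lead hQ hQ0 k P h1
  refine ⟨β, ?_⟩
  refine (hP.add hβ).congr_left fun n => ?_
  ring

variable {lam : ℂ}

lemma pow_shift (hQ : Tendsto Q atTop (𝓝 0))
    (hQl : (fun n => Q (n + 1) - lam * Q n) =O[atTop] fun n => Q n ^ 2) (k : ℕ) :
    (fun n => Q (n + 1) ^ k - lam ^ k * Q n ^ k) =O[atTop] fun n => Q n ^ (k + 1) := by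
  have hO : (fun n => Q (n + 1)) =O[atTop] Q := by
    have h1 := (hQl.trans (o_pow_mono hQ (show 1 ≤ 2 by norm_num))).add
      (((isBigO_refl Q atTop).const_mul_left lam).congr_right fun n => (pow_one (Q n)).symm)
    simpa using h1
  induction k with
  | zero =>
    simp only [pow_zero, mul_one, sub_self]
    exact isBigO_zero _ _
  | succ k ih =>
    have h1 := ih.mul hO
    have h2 : (fun n => lam ^ k * Q n ^ k * (Q (n + 1) - lam * Q n)) =O[atTop]
        fun n => Q n ^ (k + 1 + 1) := by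
      have h3 := ((isBigO_refl (fun n => Q n ^ k) atTop).const_mul_left (lam ^ k)).mul hQl
      refine h3.congr_right fun n => ?_
      ring
    refine ((h1.congr_right fun n => ?_).add h2).congr_left fun n => ?_
    · show Q n ^ (k + 1) * Q n = Q n ^ (k + 1 + 1)
      ring
    · ring

lemma ratio (hQ : Tendsto Q atTop (𝓝 0)) (hQ0 : ∀ᶠ n in atTop, Q n ≠ 0) (hlam : ‖lam‖ = 1)
    (hQl : (fun n => Q (n + 1) - lam * Q n) =O[atTop] fun n => Q n ^ 2) (k : ℕ) :
    Tendsto (fun n => ‖Q (n + 1)‖ ^ k / ‖Q n‖ ^ k) atTop (𝓝 1) := by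
  have h1 : Tendsto (fun n => (Q (n + 1) - lam * Q n) / Q n) atTop (𝓝 0) := by
    have h2 : (fun n => (Q (n + 1) - lam * Q n) / Q n) =O[atTop] Q := by
      obtain ⟨C, hC⟩ := hQl.bound
      refine IsBigO.of_bound C ?_
      filter_upwards [hC, hQ0] with n h3 h4
      rw [norm_div, div_le_iff₀ (norm_pos_iff.2 h4)]
      rw [norm_pow, pow_two] at h3
      linarith
    exact h2.trans_tendsto hQ
  have h3 : Tendsto (fun n => ‖Q (n + 1)‖ / ‖Q n‖) atTop (𝓝 1) := by
    have h4 := (h1.add_const lam).norm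
    rw [zero_add, hlam] at h4
    refine h4.congr' ?_
    filter_upwards [hQ0] with n hn
    rw [← norm_div]
    congr 1
    field_simp
    ring
  have h5 := h3.pow k
  rw [one_pow] at h5
  refine h5.congr fun n => ?_
  rw [div_pow]

/-- **Solution of a scalar recursion in the class of the polynomial expansions.** -/
lemma qe_solve (hQ : Tendsto Q atTop (𝓝 0)) (hQ0 : ∀ᶠ n in atTop, Q n ≠ 0) (hlam : ‖lam‖ = 1)
    {μ : ℂ} (hμ : ‖μ‖ ≠ 1) {K : ℕ} (hQs : QE Q (K + 1) fun n => Q (n + 1))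
    (hQl : (fun n => Q (n + 1) - lam * Q n) =O[atTop] fun n => Q n ^ 2) {s b : ℕ → ℂ}
    (hs : s =O[atTop] fun _ => (1 : ℂ)) (hrec : ∀ n, s (n + 1) = μ * s n + b n)
    (hb : QE Q (K + 1) b) : ∀ k ≤ K + 1, QE Q k s := by
  intro k
  induction k with
  | zero =>
    intro _
    apply QE.of_o
    simpa using hs
  | succ k ih =>
    intro hk
    obtain ⟨P, hP⟩ := ih (by omega)
    set t : ℕ → ℂ := fun n => s n - P.eval (Q n) with ht
    have hO : (fun n => Q (n + 1) ^ k) =O[atTop] fun n => Q n ^ k := by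
      have h1 := ((pow_shift hQ hQl k).trans (o_pow_mono hQ (Nat.le_succ k))).add
        ((isBigO_refl (fun n => Q n ^ k) atTop).const_mul_left (lam ^ k))
      simpa using h1
    set b' : ℕ → ℂ := fun n => b n - P.eval (Q (n + 1)) + μ * P.eval (Q n) with hb'
    have hb'1 : QE Q (k + 1) b' := by
      have h1 : QE Q (K + 1) fun n => P.eval (Q (n + 1)) := hQs.comp_poly hQ P
      have h2 : QE Q (K + 1) fun n => P.eval (Q n) := (QE.self (K + 1)).comp_poly hQ P
      have h3 := (hb.sub h1).add (h2.smul μ)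
      exact h3.mono hQ hk
    have hb'2 : b' =O[atTop] fun n => Q n ^ k := by
      have h1 : b' = fun n => t (n + 1) - μ * t n := by
        funext n
        simp only [hb', ht]
        rw [hrec]
        ring
      rw [h1]
      have h2 : (fun n => t (n + 1)) =O[atTop] fun n => Q n ^ k :=
        (hP.comp_tendsto (tendsto_add_atTop_nat 1)).trans hO
      exact h2.sub (hP.const_mul_left μ)
    obtain ⟨β, hβ⟩ := qe_lead hQ hQ0 hb'1 hb'2
    have hne : lam ^ k - μ ≠ 0 := by
      intro h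
      apply hμ
      rw [← sub_eq_zero.1 h, norm_pow, hlam, one_pow]
    set c := β / (lam ^ k - μ) with hc
    have hcβ : c * (lam ^ k - μ) = β := div_mul_cancel₀ _ hne
    set t' : ℕ → ℂ := fun n => t n - c * Q n ^ k with ht'
    have hrec' : (fun n => t' (n + 1) - μ * t' n) =O[atTop] fun n => Q n ^ (k + 1) := by
      have h1 := hβ.sub ((pow_shift hQ hQl k).const_mul_left c)
      refine h1.congr_left fun n => ?_
      simp only [ht', ht, hb']
      rw [hrec, ← hcβ]
      ring
    have hbdd : t' =O[atTop] fun _ => (1 : ℂ) := by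
      have h1 : (fun n => Q n ^ k) =O[atTop] fun _ => (1 : ℂ) := (hQ.pow k).isBigO_one ℂ
      exact (hP.trans h1).sub (h1.const_mul_left c)
    obtain ⟨C, hC0, hC⟩ := hrec'.exists_nonneg
    rw [isBigOWith_iff] at hC
    have hrat := ratio hQ hQ0 hlam hQl (k + 1)
    have hmain : ∃ A, 0 ≤ A ∧ ∀ᶠ n in atTop, ‖t' n‖ ≤ A * ‖Q n‖ ^ (k + 1) := by
      rcases lt_or_gt_of_ne hμ with h | h
      · refine forward (θ := ‖μ‖) (ρ := (1 + ‖μ‖) / 2) (C := C) (norm_nonneg _) (by linarith) hC0
          ?_ ?_ ?_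
        · filter_upwards [hQ0] with n hn
          exact pow_pos (norm_pos_iff.2 hn) _
        · filter_upwards [hC] with n hn
          rw [norm_pow] at hn
          have h2 : ‖t' (n + 1)‖ ≤ ‖t' (n + 1) - μ * t' n‖ + ‖μ * t' n‖ := by
            have := norm_add_le (t' (n + 1) - μ * t' n) (μ * t' n)
            rwa [sub_add_cancel] at this
          rw [norm_mul] at h2
          linarith
        · filter_upwards [hrat.eventually_const_lt (show (1 + ‖μ‖) / 2 < 1 by linarith), hQ0]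
            with n hn hn0
          exact ((lt_div_iff₀ (pow_pos (norm_pos_iff.2 hn0) _)).1 hn).le
      · have hμ0 : 0 < ‖μ‖ := by linarith
        obtain ⟨B, hB⟩ := hbdd.bound
        refine backward (y := fun n => ‖t' n‖) (a := fun n => ‖Q n‖ ^ (k + 1)) (θ := ‖μ‖⁻¹)
          (ρ := (1 + ‖μ‖) / 2) (C := ‖μ‖⁻¹ * C) (B := B)
          (inv_nonneg.2 hμ0.le) (inv_lt_one_of_one_lt₀ h) (by linarith) ?_ (by positivity) ?_ ?_
          ?_ ?_
        · rw [inv_mul_eq_div, div_lt_one hμ0]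
          linarith
        · filter_upwards [hB] with n hn
          simpa using hn
        · filter_upwards with n
          positivity
        · filter_upwards [hC] with n hn
          rw [norm_pow] at hn
          have h2 : ‖μ‖ * ‖t' n‖ ≤ ‖t' (n + 1)‖ + C * ‖Q n‖ ^ (k + 1) := by
            rw [← norm_mul]
            have := norm_sub_le (t' (n + 1)) (t' (n + 1) - μ * t' n)
            rw [sub_sub_cancel] at this
            linarith
          have h3 := mul_le_mul_of_nonneg_left h2 (inv_nonneg.2 hμ0.le)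
          rw [← mul_assoc, inv_mul_cancel₀ hμ0.ne', one_mul] at h3
          refine h3.trans (le_of_eq ?_)
          ring
        · filter_upwards [hrat.eventually_lt_const (show 1 < (1 + ‖μ‖) / 2 by linarith), hQ0]
            with n hn hn0
          exact ((div_lt_iff₀ (pow_pos (norm_pos_iff.2 hn0) _)).1 hn).le
    obtain ⟨A, _, hA⟩ := hmain
    refine ⟨P + Polynomial.C c * Polynomial.X ^ k, IsBigO.of_bound A ?_⟩
    filter_upwards [hA] with n hn
    rw [norm_pow]
    convert hn using 2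
    simp only [ht', ht, Polynomial.eval_add, Polynomial.eval_mul, Polynomial.eval_C,
      Polynomial.eval_pow, Polynomial.eval_X]
    ring

end Pool.Agent.SP82
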