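import Mathlib
import Pool.Agent.SP82.A
import Pool.Agent.KS6_82.Crv.Orb

/-!
# Expansions of slowly convergent orbits, and closed sets of dimension at most one
-/

set_option autoImplicit false

namespace Pool.Agent.SP82

open Filter Topology Asymptotics MvPolynomial Pool.Agent.KS6_82.Crv Pool.Agent.KS6_82.Att

variable {M : ℕ} {z : Fin M → ℂ} {Z : ℕ → Fin M → ℂ} {G : Fin M → MvPolynomial (Fin M) ℂ}
  {Q : ℕ → ℂ} {lam : ℂ}

lemma vec_solve (hQ : Tendsto Q atTop (𝓝 0)) (hQ0 : ∀ᶠ n in atTop, Q n ≠ 0) (hlam : ‖lam‖ = 1)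
    {K : ℕ} (hQs : QE Q (K + 1) fun n => Q (n + 1))
    (hQl : (fun n => Q (n + 1) - lam * Q n) =O[atTop] fun n => Q n ^ 2)
    (T : Module.End ℂ (Fin M → ℂ)) :
    ∀ (l : List ℂ), (∀ ν ∈ l, ‖ν‖ ≠ 1) → ∀ (w E : ℕ → Fin M → ℂ),
      (∀ n, w (n + 1) = T (w n) + E n) → (∀ i, QE Q (K + 1) fun n => E n i) →
      (∀ i, QE Q 0 fun n => w n i) →
      (∀ i, QE Q (K + 1) fun n => Polynomial.aeval T
        (l.map fun ν => Polynomial.X - Polynomial.C ν).prod (w n) i) →
      ∀ i, QE Q (K + 1) fun n => w n i := by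
  intro l
  induction l with
  | nil =>
    intro _ w E _ _ _ h i
    simpa using h i
  | cons ν l ih =>
    intro hl w E hrec hE hw h i
    set w' : ℕ → Fin M → ℂ := fun n => T (w n) - ν • w n with hw'
    have h1 : ∀ j, QE Q (K + 1) fun n => w' n j := by
      refine ih (fun ν hν => hl ν (List.mem_cons_of_mem _ hν)) w' (fun n => T (E n) - ν • E n)
        ?_ ?_ ?_ ?_
      · intro n
        simp only [hw']
        rw [hrec, map_add, map_sub, map_smul, smul_add]
        abel
      · intro j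
        exact (QE.lin hE T j).sub ((hE j).smul ν)
      · intro j
        exact (QE.lin hw T j).sub ((hw j).smul ν)
      · intro j
        convert h j using 1
        funext n
        have e1 : Polynomial.aeval T (Polynomial.X - Polynomial.C ν) (w n) = T (w n) - ν • w n := by
          rw [map_sub, Polynomial.aeval_X, Polynomial.aeval_C, LinearMap.sub_apply,
            Module.algebraMap_end_apply]
        rw [List.map_cons, List.prod_cons, mul_comm, map_mul, Module.End.mul_apply, e1]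
    refine qe_solve hQ hQ0 hlam (hl ν List.mem_cons_self) hQs hQl ((hw i).bdd hQ)
      (b := fun n => w' n i + E n i) ?_ ((h1 i).add (hE i)) (K + 1) le_rfl
    intro n
    rw [hrec]
    simp only [hw', Pi.add_apply, Pi.sub_apply, Pi.smul_apply, smul_eq_mul]
    ring

/-- the data of a slowly convergent orbit in the cone -/
structure Slow (Z : ℕ → Fin M → ℂ) (z : Fin M → ℂ) (G : Fin M → MvPolynomial (Fin M) ℂ)
    (ξ : (Fin M → ℂ) →ₗ[ℂ] ℂ) (lam : ℂ) : Prop where
  fix : ∀ i, eval z (G i) = z i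
  step : ∀ n, Z (n + 1) = vl G (Z n)
  lim : Tendsto Z atTop (𝓝 z)
  unit : ‖lam‖ = 1
  eig : ∀ w, ξ (linT z G w) = lam * ξ w
  dom : (fun n => Z n - z) =O[atTop] fun n => ‖ξ (Z n - z)‖
  ne : ∀ᶠ n in atTop, ξ (Z n - z) ≠ 0

theorem slow_expansions {ξ : (Fin M → ℂ) →ₗ[ℂ] ℂ} (h : Slow Z z G ξ lam) {e : Fin M → ℂ}
    (l : List ℂ) (hl : ∀ ν ∈ l, ‖ν‖ ≠ 1)
    (hT : ∀ w, Polynomial.aeval (linT z G) (l.map fun ν => Polynomial.X - Polynomial.C ν).prod w =
      ξ w • e) :
    Tendsto (fun n => ξ (Z n - z)) atTop (𝓝 0) ∧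
      (fun n => ξ (Z (n + 1) - z)) =O[atTop] (fun n => ξ (Z n - z)) ∧
      (fun n => ξ (Z n - z)) =O[atTop] (fun n => ξ (Z (n + 1) - z)) ∧
      ∀ k i, QE (fun n => ξ (Z n - z)) k fun n => Z n i - z i := by
  set T := linT z G with hTd
  set w : ℕ → Fin M → ℂ := fun n => Z n - z with hw
  set Q : ℕ → ℂ := fun n => ξ (w n) with hQdef
  set E : ℕ → Fin M → ℂ := fun n => w (n + 1) - T (w n) with hEdef
  have hz := h.fix
  have hwt : Tendsto w atTop (𝓝 0) := tendsto_sub_nhds_zero_iff.2 h.lim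
  have hqc : Continuous ξ := LinearMap.continuous_of_finiteDimensional ξ
  have hQ : Tendsto Q atTop (𝓝 0) := by
    have := (hqc.tendsto 0).comp hwt
    rwa [map_zero] at this
  have hQ0 : ∀ᶠ n in atTop, Q n ≠ 0 := h.ne
  have hwO : w =O[atTop] fun n => ‖Q n‖ := h.dom
  have hwQ : ∀ i, (fun n => w n i) =O[atTop] Q := fun i => by
    have := (isBigO_pi.1 hwO) i
    exact isBigO_norm_right.1 this
  have hEi : ∀ n i, E n i = eval (Z n) (G i - C (eval z (G i)) -
      ∑ j, C (eval z (pderiv j (G i))) * (X j - C (z j))) := by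
    intro n i
    simp only [hEdef, hw, hTd, Pi.sub_apply, linT_apply, h.step, map_sub, hz, eval_C, map_sum,
      map_mul, eval_X, mul_sub, Finset.sum_sub_distrib]
    rfl
  have hEQ : E =O[atTop] fun n => ‖Q n‖ ^ 2 := by
    rw [isBigO_pi]
    intro i
    refine (o_sq h.lim hwO _ (taylor z (G i))).congr_left fun n => ?_
    rw [hEi]
  have hQs : ∀ n, Q (n + 1) = lam * Q n + ξ (E n) := by
    intro n
    have h6 : w (n + 1) = T (w n) + E n := by simp only [hEdef]; abel
    simp only [hQdef]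
    rw [h6, map_add, h.eig]
  have hQl : (fun n => Q (n + 1) - lam * Q n) =O[atTop] fun n => Q n ^ 2 := by
    have h3 : (fun n => ξ (E n)) =O[atTop] E := by
      refine IsBigO.of_bound ‖LinearMap.toContinuousLinearMap ξ‖ ?_
      filter_upwards with n
      exact (LinearMap.toContinuousLinearMap ξ).le_opNorm (E n)
    have h4 := h3.trans hEQ
    have h5 : (fun n => Q (n + 1) - lam * Q n) = fun n => ξ (E n) := by
      funext n
      rw [hQs]
      ring
    rw [h5]
    refine h4.trans ?_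
    refine IsBigO.of_bound 1 ?_
    filter_upwards with n
    rw [norm_pow, norm_pow, norm_norm, one_mul]
  have hO : (fun n => Q (n + 1)) =O[atTop] Q := by
    have h1 := (hQl.trans (o_pow_mono hQ (show 1 ≤ 2 by norm_num))).add
      (((isBigO_refl Q atTop).const_mul_left lam).congr_right fun n => (pow_one (Q n)).symm)
    simpa using h1
  have hO' : Q =O[atTop] fun n => Q (n + 1) := by
    have h1 := ratio hQ hQ0 h.unit hQl 1
    simp only [pow_one] at h1
    refine IsBigO.of_bound 2 ?_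
    filter_upwards [h1.eventually_const_lt (show (1 / 2 : ℝ) < 1 by norm_num), hQ0] with n hn hn0
    have := (lt_div_iff₀ (norm_pos_iff.2 hn0)).1 hn
    linarith
  refine ⟨hQ, hO, hO', ?_⟩
  have hk : ∀ k : ℕ, ∀ i, QE Q (k + 1) fun n => w n i := by
    intro k
    induction k with
    | zero =>
      intro i
      apply QE.of_o
      simpa using hwQ i
    | succ k ih =>
      have hEk : ∀ i, QE Q (k + 1 + 1) fun n => E n i := by
        intro i
        have h3 := qe_sq hQ (Nat.succ_le_succ (Nat.zero_le k)) h.lim hwO ih _ (taylor z (G i))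
        convert h3 using 1
        funext n
        rw [hEi]
      have hQk : QE Q (k + 1 + 1) fun n => Q (n + 1) := by
        simp_rw [hQs]
        exact ((QE.self (k + 1 + 1)).smul lam).add (QE.linf hEk ξ)
      refine vec_solve hQ hQ0 h.unit hQk hQl T l hl w E (fun n => ?_) hEk
        (fun i => (ih i).mono hQ (Nat.zero_le _)) ?_
      · simp only [hEdef]
        abel
      · intro i
        have h4 := (QE.self (Q := Q) (k + 1 + 1)).smul (e i)
        convert h4 using 1
        funext n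
        rw [hT]
        simp only [Pi.smul_apply, smul_eq_mul, hQdef]
        ring
  intro k i
  exact (hk k i).mono hQ (Nat.le_succ k)

/-- The class of an orbit with polynomial expansions in a small sequence. -/
theorem qe_class {S : Set (MvPolynomial (Fin M) ℂ)} (hS : ∀ g ∈ S, ∃ e : ℕ, g.IsHomogeneous e)
    (hdim : ringKrullDim (MvPolynomial (Fin M) ℂ ⧸ Ideal.span S) ≤ 2) {D : ℕ}
    (hG : ∀ i, (G i).IsHomogeneous D) (hz0 : z ≠ 0)
    (hrec : ∀ n, Z (n + 1) = vl G (Z n)) (hZt : Tendsto Z atTop (𝓝 z))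
    (hQ : Tendsto Q atTop (𝓝 0)) (hQ0 : ∀ᶠ n in atTop, Q n ≠ 0)
    (hqO : (fun n => Q (n + 1)) =O[atTop] Q)
    (hev : ∀ (h : MvPolynomial (Fin M) ℂ) (k : ℕ), QE Q k fun n => eval (Z n) h)
    (hns : ∃ (g : MvPolynomial (Fin M) ℂ) (e : ℕ), g.IsHomogeneous e ∧ eval z g = 0 ∧
      ¬ ∀ k : ℕ, (fun n => eval (Z n) g) =O[atTop] fun n => Q n ^ k) :
    (∀ᶠ n in atTop, ∀ h ∈ S, eval (Z n) h = 0) ∨ (∀ᶠ n in atTop, ¬ ∀ h ∈ S, eval (Z n) h = 0) := by
  classical
  have hdich : ∀ h : MvPolynomial (Fin M) ℂ, (∀ k : ℕ, (fun n => eval (Z n) h) =O[atTop] fun n => Q n ^ k) ∨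
      ∃ (j : ℕ) (c : ℝ), 0 < c ∧ ∀ᶠ n in atTop, c * ‖Q n‖ ^ j ≤ ‖eval (Z n) h‖ := fun h =>
    q_dichotomy hQ hQ0 (hev h)
  have hnot : ∀ u : ℕ → ℂ, (∀ k : ℕ, u =O[atTop] fun n => Q n ^ k) → ∀ (j : ℕ) (c : ℝ), 0 < c →
      ¬ ∀ᶠ n in atTop, c * ‖Q n‖ ^ j ≤ ‖u n‖ := by
    intro u hu j c hc h
    obtain ⟨C, hC⟩ := (hu (j + 1)).bound
    have h3 : Tendsto (fun n => C * ‖Q n‖) atTop (𝓝 0) := by
      have := hQ.norm.const_mul C
      simpa using this
    obtain ⟨n, h4, h5, h6, h7⟩ := (h.and (hC.and (hQ0.and (h3.eventually_lt_const hc)))).exists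
    have h8 : 0 < ‖Q n‖ ^ j := pow_pos (norm_pos_iff.2 h6) j
    rw [norm_pow, pow_succ] at h5
    nlinarith [mul_lt_mul_of_pos_left h7 h8]
  let J : Ideal (MvPolynomial (Fin M) ℂ) :=
    { carrier := {h | ∀ k : ℕ, (fun n => eval (Z n) h) =O[atTop] fun n => Q n ^ k}
      add_mem' := by
        intro a b ha hb k
        have := (ha k).add (hb k)
        refine this.congr_left fun n => ?_
        rw [map_add]
      zero_mem' := by
        intro k
        simpa using isBigO_zero _ _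
      smul_mem' := by
        intro a b hb k
        have h3 := ((hev a 0).bdd hQ).mul (hb k)
        simp only [one_mul] at h3
        refine h3.congr_left fun n => ?_
        rw [smul_eq_mul, map_mul] }
  have hJmem : ∀ h, h ∈ J ↔ ∀ k : ℕ, (fun n => eval (Z n) h) =O[atTop] fun n => Q n ^ k := fun h => Iff.rfl
  have hbig : ∀ h, h ∉ J → ∃ (j : ℕ) (c : ℝ), 0 < c ∧ ∀ᶠ n in atTop, c * ‖Q n‖ ^ j ≤ ‖eval (Z n) h‖ :=
    fun h hh => (hdich h).resolve_left hh
  have hJp : J.IsPrime := by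
    constructor
    · intro htop
      have h3 : (1 : MvPolynomial (Fin M) ℂ) ∈ J := by rw [htop]; trivial
      refine hnot _ ((hJmem 1).1 h3) 0 1 one_pos ?_
      filter_upwards with n
      simp
    · intro a b hab
      by_contra hcon
      push Not at hcon
      obtain ⟨ha, hb⟩ := hcon
      obtain ⟨j, c, hc, h3⟩ := hbig a ha
      obtain ⟨j', c', hc', h4⟩ := hbig b hb
      refine hnot _ ((hJmem _).1 hab) (j + j') (c * c') (mul_pos hc hc') ?_
      filter_upwards [h3, h4] with n h5 h6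
      rw [map_mul, norm_mul, pow_add]
      calc c * c' * (‖Q n‖ ^ j * ‖Q n‖ ^ j') = (c * ‖Q n‖ ^ j) * (c' * ‖Q n‖ ^ j') := by ring
        _ ≤ _ := mul_le_mul h5 h6 (by positivity) (norm_nonneg _)
  refine curve_lemma hS hdim hG hrec hJp ?_ ?_ hz0 ?_ ?_
  · intro h hh k
    have h3 : (fun n => eval (Z n) (phi G h)) = fun n => eval (Z (n + 1)) h := by
      funext n
      rw [eval_phi, hrec]
      rfl
    rw [h3]
    have h4 : (fun n => eval (Z (n + 1)) h) =O[atTop] fun n => Q (n + 1) ^ k :=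
      (hh k).comp_tendsto (tendsto_add_atTop_nat 1)
    exact h4.trans (hqO.pow k)
  · intro h hh
    obtain ⟨j, c, hc, h3⟩ := hbig h hh
    filter_upwards [h3, hQ0] with n h4 h5 h6
    rw [h6, norm_zero] at h4
    exact absurd h4 (not_le.2 (mul_pos hc (pow_pos (norm_pos_iff.2 h5) j)))
  · intro h hh
    rw [mem_mz]
    have h3 : Tendsto (fun n => eval (Z n) h) atTop (𝓝 (eval z h)) :=
      ((continuous_eval h).tendsto z).comp hZt
    have h4 : Tendsto (fun n => eval (Z n) h) atTop (𝓝 0) := by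
      have h5 := hh 1
      simp only [pow_one] at h5
      exact h5.trans_tendsto hQ
    exact tendsto_nhds_unique h3 h4
  · exact hns

/-- A slowly convergent orbit does not approach its limit in projective space too fast. -/
theorem slow_ns {D : ℕ} (hD : 2 ≤ D)
    (hG : ∀ i, (G i).IsHomogeneous D) (hz0 : z ≠ 0) {ξ : (Fin M → ℂ) →ₗ[ℂ] ℂ}
    (hs : Slow Z z G ξ lam) (hQ : Tendsto (fun n => ξ (Z n - z)) atTop (𝓝 0)) :
    ∃ (g : MvPolynomial (Fin M) ℂ) (e : ℕ), g.IsHomogeneous e ∧ eval z g = 0 ∧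
      ¬ ∀ k : ℕ, (fun n => eval (Z n) g) =O[atTop] fun n => ξ (Z n - z) ^ k := by
  classical
  have hz : vl G z = z := funext hs.fix
  set Q : ℕ → ℂ := fun n => ξ (Z n - z) with hQdef
  have hQ0 : ∀ᶠ n in atTop, Q n ≠ 0 := hs.ne
  by_contra hcon
  push Not at hcon
  obtain ⟨i0, hi0⟩ : ∃ i, z i ≠ 0 := by
    by_contra h
    push Not at h
    exact hz0 (funext h)
  have hcr : ∀ i, ∀ k : ℕ, (fun n => eval (Z n) (X i * C (z i0) - X i0 * C (z i) :
      MvPolynomial (Fin M) ℂ)) =O[atTop] fun n => Q n ^ k := by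
    intro i
    refine hcon _ 1 ?_ ?_
    · have e1 := (isHomogeneous_X ℂ i).mul (isHomogeneous_C (Fin M) (z i0))
      have e2 := (isHomogeneous_X ℂ i0).mul (isHomogeneous_C (Fin M) (z i))
      exact e1.sub e2
    · simp only [map_sub, map_mul, eval_X, eval_C]
      ring
  -- `ξ z = 0`
  have hqz : ξ z = 0 := by
    have h3 := hs.eig z
    rw [euler hG hz, map_smul, smul_eq_mul] at h3
    have h4 : ((D : ℂ) - lam) * ξ z = 0 := by rw [sub_mul, h3, sub_self]
    rcases mul_eq_zero.1 h4 with h5 | h5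
    · exfalso
      have h6 : ‖(D : ℂ)‖ = 1 := by rw [sub_eq_zero.1 h5, hs.unit]
      rw [Complex.norm_natCast] at h6
      have : D = 1 := by exact_mod_cast h6
      omega
    · exact h5
  set v : ℕ → Fin M → ℂ := fun n i => (Z n i * z i0 - Z n i0 * z i) / z i0 with hv
  have hvq : ∀ n, ξ (Z n - z) = ξ (v n) := by
    intro n
    have h3 : Z n - z = v n + ((Z n i0 - z i0) / z i0) • z := by
      funext i
      simp only [hv, Pi.sub_apply, Pi.add_apply, Pi.smul_apply, smul_eq_mul]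
      field_simp
      ring
    rw [h3, map_add, map_smul, hqz, smul_zero, add_zero]
  have hvO : v =O[atTop] fun n => Q n ^ 2 := by
    rw [isBigO_pi]
    intro i
    have h3 := (hcr i 2).const_mul_left (z i0)⁻¹
    refine h3.congr_left fun n => ?_
    simp only [hv, map_sub, map_mul, eval_X, eval_C]
    field_simp
  have hqv : (fun n => ξ (v n)) =O[atTop] v := by
    refine IsBigO.of_bound ‖LinearMap.toContinuousLinearMap ξ‖ ?_
    filter_upwards with n
    exact (LinearMap.toContinuousLinearMap ξ).le_opNorm (v n)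
  have hQ2 : Q =O[atTop] fun n => Q n ^ 2 := by
    have : Q = fun n => ξ (v n) := funext hvq
    rw [this]
    rw [this] at hvO
    exact hqv.trans hvO
  obtain ⟨C, hC⟩ := hQ2.bound
  have h3 : Tendsto (fun n => C * ‖Q n‖) atTop (𝓝 0) := by
    have := hQ.norm.const_mul C
    simpa using this
  obtain ⟨n, h4, h5, h6⟩ := (hC.and (hQ0.and (h3.eventually_lt_const one_pos))).exists
  have h7 : 0 < ‖Q n‖ := norm_pos_iff.2 h5
  rw [norm_pow, pow_two] at h4
  nlinarith

end Pool.Agent.SP82
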