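import Mathlib
import Pool.Agent.SP82.B

/-!
# Slow or exponential convergence
-/

set_option autoImplicit false

namespace Pool.Agent.SP82

open Filter Topology Asymptotics MvPolynomial Pool.Agent.KS6_82.Crv Pool.Agent.KS6_82.Att

/-- the logarithms of the scaling factors -/
lemma exists_S (D : ℕ) (hD : 2 ≤ D) (κ : ℕ → ℂ) (hκ' : ∀ n, ‖κ n - 1‖ ≤ 1 / 2) :
    ∃ S : ℕ → ℂ, (∀ n, ‖S n‖ ≤ 1) ∧ ∀ n, (D : ℂ) * S n = Complex.log (κ n) + S (n + 1) := by
  have hD0 : (0 : ℝ) < D := by positivity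
  have hD2 : (2 : ℝ) ≤ D := by exact_mod_cast hD
  set q : ℝ := 1 / D with hq
  have hq0 : 0 ≤ q := by positivity
  have hq1 : q ≤ 1 / 2 := one_div_le_one_div_of_le (by norm_num) hD2
  have hq1' : q < 1 := lt_of_le_of_lt hq1 (by norm_num)
  have hlog : ∀ n, ‖Complex.log (κ n)‖ ≤ 3 / 2 * ‖κ n - 1‖ := by
    intro n
    have := Complex.norm_log_one_add_half_le_self (hκ' n)
    simpa using this
  have hb' : ∀ n k : ℕ, ‖Complex.log (κ (n + k)) / (D : ℂ) ^ (k + 1)‖ ≤ (3 / 4) * (q * q ^ k) := by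
    intro n k
    rw [norm_div, norm_pow, Complex.norm_natCast]
    have h1 : ‖Complex.log (κ (n + k))‖ ≤ 3 / 4 := by
      refine (hlog _).trans ?_
      linarith [hκ' (n + k)]
    rw [← pow_succ', hq, one_div, inv_pow, ← div_eq_mul_inv]
    exact div_le_div_of_nonneg_right h1 (pow_nonneg hD0.le _)
  have hgeo : HasSum (fun k : ℕ => q * q ^ k) (q * (1 - q)⁻¹) :=
    (hasSum_geometric_of_lt_one hq0 hq1').mul_left q
  have hg1 : q * (1 - q)⁻¹ ≤ 1 := by
    rw [← div_eq_mul_inv, div_le_one (by linarith)]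
    linarith
  have hsum : ∀ n, Summable fun k => Complex.log (κ (n + k)) / (D : ℂ) ^ (k + 1) := fun n =>
    Summable.of_norm_bounded (hgeo.summable.mul_left _) (hb' n)
  set S : ℕ → ℂ := fun n => ∑' k, Complex.log (κ (n + k)) / (D : ℂ) ^ (k + 1) with hS
  have hS2 : ∀ n, ‖S n‖ ≤ 1 := by
    intro n
    refine (tsum_of_norm_bounded (hgeo.mul_left _) (hb' n)).trans ?_
    linarith
  have hDc : (D : ℂ) ≠ 0 := by exact_mod_cast hD0.ne'
  refine ⟨S, hS2, fun n => ?_⟩
  simp only [hS]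
  rw [(hsum n).tsum_eq_zero_add, mul_add, ← tsum_mul_left]
  congr 1
  · rw [add_zero, zero_add, pow_one]
    field_simp
  · apply tsum_congr
    intro k
    rw [show n + (k + 1) = n + 1 + k by ring, pow_succ' (D : ℂ) (k + 1)]
    field_simp

variable {M : ℕ} {z : Fin M → ℂ} {G : Fin M → MvPolynomial (Fin M) ℂ} {lam : ℂ}

/-- **Dichotomy**: slow or exponential convergence. -/
theorem slow_or_fast {D : ℕ} (hD : 2 ≤ D) (hG : ∀ i, (G i).IsHomogeneous D) (hz0 : z ≠ 0)
    (hz : vl G z = z) {X : ℕ → Fin M → ℂ} (hX : ∀ n, X (n + 1) = vl G (X n)) {s : ℕ → ℂ}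
    (hs : Tendsto (fun n => s n • X n) atTop (𝓝 z)) {ξ : (Fin M → ℂ) →ₗ[ℂ] ℂ}
    (hlam : 1 ≤ ‖lam‖) (heig : ∀ w, ξ (linT z G w) = lam * ξ w) (hξz : ξ z = 0) {g : Fin M → ℂ}
    {a : (Fin M → ℂ) →ₗ[ℂ] ℂ}
    (hpow : ∀ v, ‖linT z G v - a v • z - ξ v • g‖ ≤ 1 / 32 * ‖v‖) :
    (∃ (s' : ℕ → ℂ) (C : ℝ), ∀ n, ‖s' n • X n - z‖ ≤ C * (1 / 2) ^ n) ∨
      (‖lam‖ = 1 ∧ ∃ (n₀ : ℕ) (b : ℕ → ℂ), (∀ n, b n ≠ 0) ∧
        Slow (fun n => b n • X (n₀ + n)) z G ξ lam) := by
  classical
  have hM : Nonempty (Fin M) := by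
    by_contra h
    rw [not_nonempty_iff] at h
    exact hz0 (Subsingleton.elim _ _)
  obtain ⟨i0, hi0⟩ := Finite.exists_max fun i => ‖z i‖
  have hzn : ‖z‖ ≤ ‖z i0‖ := (pi_norm_le_iff_of_nonneg (norm_nonneg _)).2 hi0
  have hzi0 : z i0 ≠ 0 := by
    intro h
    rw [h, norm_zero] at hzn
    exact hz0 (norm_le_zero_iff.1 hzn)
  have hzi : 0 < ‖z i0‖ := norm_pos_iff.2 hzi0
  set T := linT z G with hT
  set ℓ : (Fin M → ℂ) →ₗ[ℂ] ℂ := (z i0)⁻¹ • LinearMap.proj i0 with hℓ
  have hℓa : ∀ x, ℓ x = (z i0)⁻¹ * x i0 := fun x => rfl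
  have hℓz : ℓ z = 1 := by rw [hℓa, inv_mul_cancel₀ hzi0]
  have hℓb : ∀ x, ‖ℓ x • z‖ ≤ ‖x‖ := by
    intro x
    rw [norm_smul, hℓa, norm_mul, norm_inv]
    have h1 := norm_le_pi_norm x i0
    calc ‖z i0‖⁻¹ * ‖x i0‖ * ‖z‖ ≤ ‖z i0‖⁻¹ * ‖x‖ * ‖z i0‖ := by gcongr
      _ = ‖x‖ := by field_simp
  have hℓ2 : ∀ x, ‖x - ℓ x • z‖ ≤ 2 * ‖x‖ := fun x =>
    (norm_sub_le _ _).trans (by linarith [hℓb x])
  have hℓc : Continuous ℓ := LinearMap.continuous_of_finiteDimensional ℓ
  have hξc : Continuous ξ := LinearMap.continuous_of_finiteDimensional ξ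
  set Y : ℕ → Fin M → ℂ := fun n => s n • X n with hY
  have hℓY : Tendsto (fun n => ℓ (Y n)) atTop (𝓝 1) := by
    have := (hℓc.tendsto z).comp hs
    rwa [hℓz] at this
  set v : ℕ → Fin M → ℂ := fun n => (ℓ (Y n))⁻¹ • Y n with hv
  have hvt : Tendsto v atTop (𝓝 z) := by
    have := (hℓY.inv₀ one_ne_zero).smul hs
    rwa [inv_one, one_smul] at this
  set u : ℕ → Fin M → ℂ := fun n => v n - z with hu
  have hut : Tendsto u atTop (𝓝 0) := tendsto_sub_nhds_zero_iff.2 hvt
  have hun : Tendsto (fun n => ‖u n‖) atTop (𝓝 0) := by simpa using hut.norm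
  set c : ℕ → ℂ := fun n => ℓ (vl G (v n)) with hc
  have hvlc : Continuous (vl G) := by
    apply continuous_pi
    intro i
    exact continuous_eval (G i)
  have hct : Tendsto c atTop (𝓝 1) := by
    have h1 := (hℓc.tendsto (vl G z)).comp ((hvlc.tendsto z).comp hvt)
    rw [hz, hℓz] at h1
    exact h1
  have hY0 : ∀ᶠ n in atTop, ℓ (Y n) ≠ 0 := hℓY.eventually_ne one_ne_zero
  -- the scaling factor of `v`
  set bb : ℕ → ℂ := fun n => (ℓ (Y n))⁻¹ * s n with hbb
  have hvb : ∀ n, v n = bb n • X n := fun n => by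
    simp only [hv, hY, hbb]
    rw [smul_smul]
  have hbb0 : ∀ᶠ n in atTop, bb n ≠ 0 := by
    filter_upwards [hY0] with n hn h
    rcases mul_eq_zero.1 h with h1 | h1
    · exact hn (inv_eq_zero.1 h1)
    · apply hn
      simp only [hY]
      rw [h1, zero_smul, map_zero]
  have hℓv : ∀ᶠ n in atTop, ℓ (v n) = 1 := by
    filter_upwards [hY0] with n hn
    simp only [hv]
    rw [map_smul, smul_eq_mul, inv_mul_cancel₀ hn]
  have hstep : ∀ᶠ n in atTop, vl G (v n) = c n • v (n + 1) := by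
    filter_upwards [(tendsto_add_atTop_nat 1).eventually hbb0,
      (tendsto_add_atTop_nat 1).eventually hℓv] with n hn1 hn2
    have h1 : vl G (v n) = (bb n ^ D / bb (n + 1)) • v (n + 1) := by
      rw [hvb, hvb, vl_smul hG, ← hX, smul_smul, div_mul_cancel₀ _ hn1]
    have h2 : c n = bb n ^ D / bb (n + 1) := by
      simp only [hc]
      rw [h1, map_smul, hn2, smul_eq_mul, mul_one]
    rw [h1, h2]
  -- Taylor
  set R : ℕ → Fin M → ℂ := fun n => vl G (v n) - z - T (u n) with hR
  have hRO : R =O[atTop] fun n => ‖u n‖ ^ 2 := by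
    rw [isBigO_pi]
    intro i
    have h3 := o_sq hvt (b := fun n => ‖u n‖) (isBigO_norm_right.2 (isBigO_refl _ _)) _
      (taylor z (G i))
    refine h3.congr_left fun n => ?_
    have hz' : eval z (G i) = z i := congrFun hz i
    simp only [hR, hu, hT, Pi.sub_apply, linT_apply, map_sub, hz', eval_C, map_sum, map_mul,
      eval_X, mul_sub, Finset.sum_sub_distrib]
    rfl
  obtain ⟨C, hC0, hC⟩ := hRO.exists_pos
  rw [isBigOWith_iff] at hC
  have hC' : ∀ᶠ n in atTop, ‖R n‖ ≤ C * ‖u n‖ ^ 2 := by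
    filter_upwards [hC] with n hn
    rwa [Real.norm_of_nonneg (by positivity)] at hn
  -- the recursion for `u`
  set g' := g - ℓ g • z with hg'
  set r : ℕ → Fin M → ℂ := fun n => T (u n) - a (u n) • z - ξ (u n) • g with hr
  have hrec : ∀ᶠ n in atTop, c n • u (n + 1) =
      ξ (u n) • g' + (r n - ℓ (r n) • z) + (R n - ℓ (R n) • z) := by
    filter_upwards [hstep, (tendsto_add_atTop_nat 1).eventually hℓv] with n hn hn2
    have h1 : c n • v (n + 1) = z + T (u n) + R n := by
      rw [← hn]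
      simp only [hR]
      abel
    have h2 : T (u n) = a (u n) • z + ξ (u n) • g + r n := by
      simp only [hr]
      abel
    have h3 : c n = 1 + (a (u n) + ξ (u n) * ℓ g + ℓ (r n)) + ℓ (R n) := by
      have h4 := congrArg ℓ h1
      rw [map_smul, hn2, smul_eq_mul, mul_one, map_add, map_add, hℓz, h2, map_add, map_add,
        map_smul, map_smul, hℓz, smul_eq_mul, smul_eq_mul, mul_one] at h4
      exact h4
    have h5 : c n • u (n + 1) = z + T (u n) + R n - c n • z := by
      rw [← h1, ← smul_sub]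
    rw [h5, h2, h3, hg']
    module
  have hrecξ : ∀ᶠ n in atTop, c n * ξ (u (n + 1)) = lam * ξ (u n) + ξ (R n) := by
    filter_upwards [hstep] with n hn
    have h1 : c n • v (n + 1) = z + T (u n) + R n := by
      rw [← hn]
      simp only [hR]
      abel
    have h2 := congrArg ξ h1
    rw [map_smul, map_add, map_add, hξz, zero_add, heig, smul_eq_mul] at h2
    rw [← h2]
    simp only [hu]
    rw [map_sub, hξz, sub_zero]
  set A := ‖g'‖ with hA
  have hA0 : 0 ≤ A := norm_nonneg _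
  set B := 8 * A + 1 with hB
  have hB0 : 0 < B := by positivity
  set x : ℕ → ℝ := fun n => ‖ξ (u n)‖ with hx
  obtain ⟨Ξ, hΞ0, hΞ⟩ : ∃ Ξ : ℝ, 0 ≤ Ξ ∧ ∀ w, ‖ξ w‖ ≤ Ξ * ‖w‖ :=
    ⟨‖LinearMap.toContinuousLinearMap ξ‖, norm_nonneg _, fun w =>
      (LinearMap.toContinuousLinearMap ξ).le_opNorm w⟩
  have hcn : Tendsto (fun n => ‖c n‖) atTop (𝓝 1) := by
    have := hct.norm
    rwa [norm_one] at this
  have hF1 : ∀ᶠ n in atTop, ‖u (n + 1)‖ ≤ 2 * A * x n + 1 / 4 * ‖u n‖ := by
    have hsm : Tendsto (fun n => C * ‖u n‖) atTop (𝓝 0) := by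
      have := hun.const_mul C
      rwa [mul_zero] at this
    filter_upwards [hrec, hC', hcn.eventually_const_lt (show (1 / 2 : ℝ) < 1 by norm_num),
      hsm.eventually_lt_const (show (0 : ℝ) < 1 / 32 by norm_num)] with n h1 h2 h3 h4
    have h5 : ‖c n • u (n + 1)‖ ≤ x n * A + 2 * (1 / 32 * ‖u n‖) + 2 * (C * ‖u n‖ ^ 2) := by
      rw [h1]
      refine (norm_add₃_le).trans ?_
      have h6 := (hℓ2 (r n)).trans (mul_le_mul_of_nonneg_left (hpow (u n)) (by norm_num))
      have h7 := (hℓ2 (R n)).trans (mul_le_mul_of_nonneg_left h2 (by norm_num))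
      rw [norm_smul]
      exact add_le_add (add_le_add le_rfl h6) h7
    rw [norm_smul] at h5
    have h8 : C * ‖u n‖ ^ 2 ≤ 1 / 32 * ‖u n‖ := by
      rw [pow_two, ← mul_assoc]
      exact mul_le_mul_of_nonneg_right h4.le (norm_nonneg _)
    have h9 : 1 / 2 * ‖u (n + 1)‖ ≤ ‖c n‖ * ‖u (n + 1)‖ :=
      mul_le_mul_of_nonneg_right h3.le (norm_nonneg _)
    nlinarith
  -- in the cone
  have hF2 : ∀ η > (0 : ℝ), ∀ᶠ n in atTop, ‖u n‖ ≤ B * x n →
      (‖lam‖ - η) * x n ≤ (1 + η) * x (n + 1) ∧ (1 - η) * x (n + 1) ≤ (‖lam‖ + η) * x n := by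
    intro η hη
    have hsm : Tendsto (fun n => Ξ * C * B * ‖u n‖) atTop (𝓝 0) := by
      have := hun.const_mul (Ξ * C * B)
      rwa [mul_zero] at this
    filter_upwards [hrecξ, hC', hcn.eventually_lt_const (show (1 : ℝ) < 1 + η by linarith),
      hcn.eventually_const_lt (show (1 : ℝ) - η < 1 by linarith),
      hsm.eventually_lt_const hη] with n h1 h2 h3 h3' h4 h5
    have hxn : 0 ≤ x n := norm_nonneg _
    have hxn1 : 0 ≤ x (n + 1) := norm_nonneg _
    have h6 : ‖ξ (R n)‖ ≤ η * x n := by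
      refine (hΞ _).trans ((mul_le_mul_of_nonneg_left h2 hΞ0).trans ?_)
      calc Ξ * (C * ‖u n‖ ^ 2) = Ξ * C * ‖u n‖ * ‖u n‖ := by ring
        _ ≤ Ξ * C * ‖u n‖ * (B * x n) := mul_le_mul_of_nonneg_left h5 (by positivity)
        _ = Ξ * C * B * ‖u n‖ * x n := by ring
        _ ≤ η * x n := mul_le_mul_of_nonneg_right h4.le hxn
    have h7 : ‖c n‖ * x (n + 1) = ‖lam * ξ (u n) + ξ (R n)‖ := by
      rw [← h1, norm_mul]
    have h8 : ‖lam‖ * x n - ‖ξ (R n)‖ ≤ ‖lam * ξ (u n) + ξ (R n)‖ := by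
      have := norm_sub_norm_le (lam * ξ (u n)) (-ξ (R n))
      rwa [sub_neg_eq_add, norm_neg, norm_mul] at this
    have h9 : ‖lam * ξ (u n) + ξ (R n)‖ ≤ ‖lam‖ * x n + ‖ξ (R n)‖ := by
      have := norm_add_le (lam * ξ (u n)) (ξ (R n))
      rwa [norm_mul] at this
    have h10 : ‖c n‖ * x (n + 1) ≤ (1 + η) * x (n + 1) := mul_le_mul_of_nonneg_right h3.le hxn1
    have h11 : (1 - η) * x (n + 1) ≤ ‖c n‖ * x (n + 1) := mul_le_mul_of_nonneg_right h3'.le hxn1
    constructor <;> nlinarith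
  -- the cone is invariant
  have hF3 : ∀ᶠ n in atTop, ‖u n‖ ≤ B * x n → ‖u (n + 1)‖ ≤ B * x (n + 1) := by
    filter_upwards [hF1, hF2 (1 / 3) (by norm_num)] with n h1 h2 h3
    have h4 := (h2 h3).1
    have hxn : 0 ≤ x n := norm_nonneg _
    have h5 : x n ≤ 2 * x (n + 1) := by nlinarith
    have h6 : A * x n ≤ B / 8 * x n := mul_le_mul_of_nonneg_right (by linarith) hxn
    have h7 : B / 2 * x n ≤ B / 2 * (2 * x (n + 1)) := mul_le_mul_of_nonneg_left h5 (by positivity)
    nlinarith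
  have hF4 : ∀ᶠ n in atTop, ¬ ‖u n‖ ≤ B * x n → ‖u (n + 1)‖ ≤ 1 / 2 * ‖u n‖ := by
    filter_upwards [hF1] with n h1 h2
    rw [not_le] at h2
    have hxn : 0 ≤ x n := norm_nonneg _
    have h3 : 8 * A * x n ≤ B * x n := mul_le_mul_of_nonneg_right (by linarith) hxn
    linarith
  -- exponential convergence
  have hexp : (∃ N, ∀ n ≥ N, ‖u (n + 1)‖ ≤ 1 / 2 * ‖u n‖) →
      ∃ (s' : ℕ → ℂ) (C : ℝ), ∀ n, ‖s' n • X n - z‖ ≤ C * (1 / 2) ^ n := by
    rintro ⟨N, hN⟩
    refine ⟨fun n => if n < N then 0 else bb n, (‖z‖ + ‖u N‖) * 2 ^ N, fun n => ?_⟩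
    have hp : ∀ n : ℕ, (0 : ℝ) < (1 / 2) ^ n := fun n => by positivity
    have h21 : ∀ n : ℕ, (2 : ℝ) ^ n * (1 / 2) ^ n = 1 := fun n => by
      rw [← mul_pow]
      norm_num
    by_cases hn : n < N
    · simp only [if_pos hn, zero_smul, zero_sub, norm_neg]
      have h1 : (1 / 2 : ℝ) ^ N ≤ (1 / 2) ^ n :=
        pow_le_pow_of_le_one (by norm_num) (by norm_num) hn.le
      calc ‖z‖ ≤ (‖z‖ + ‖u N‖) * (2 ^ N * (1 / 2) ^ N) := by
            rw [h21, mul_one]
            linarith [norm_nonneg (u N)]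
        _ ≤ (‖z‖ + ‖u N‖) * (2 ^ N * (1 / 2) ^ n) := by gcongr
        _ = _ := by ring
    · rw [not_lt] at hn
      simp only [if_neg (not_lt.2 hn)]
      rw [← hvb]
      have h1 : ‖u n‖ ≤ ‖u N‖ * (2 ^ N * (1 / 2) ^ n) := by
        induction n, hn using Nat.le_induction with
        | base => rw [h21, mul_one]
        | succ n hn ih =>
          refine (hN n hn).trans ?_
          rw [pow_succ (1 / 2 : ℝ) n]
          nlinarith
      refine h1.trans ?_
      have h2 : 0 ≤ ‖z‖ * (2 ^ N * (1 / 2) ^ n) := by positivity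
      nlinarith
  by_cases hcone : ∃ᶠ n in atTop, ‖u n‖ ≤ B * x n
  swap
  · left
    rw [not_frequently] at hcone
    apply hexp
    obtain ⟨N, hN⟩ := eventually_atTop.1 (hcone.and hF4)
    exact ⟨N, fun n hn => (hN n hn).2 (hN n hn).1⟩
  -- eventually in the cone
  have hcone' : ∀ᶠ n in atTop, ‖u n‖ ≤ B * x n := by
    obtain ⟨N, hN⟩ := eventually_atTop.1 hF3
    obtain ⟨n1, hn1, h1⟩ := (frequently_atTop.1 hcone) N
    refine eventually_atTop.2 ⟨n1, fun n hn => ?_⟩
    induction n, hn using Nat.le_induction with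
    | base => exact h1
    | succ n hn ih => exact hN n (by omega) ih
  by_cases hzero : ∃ᶠ n in atTop, x n = 0
  · left
    apply hexp
    obtain ⟨N, hN⟩ := eventually_atTop.1 (hcone'.and hF1)
    obtain ⟨n1, hn1, h1⟩ := (frequently_atTop.1 hzero) N
    have h2 : ∀ n ≥ n1, ‖u n‖ ≤ 0 := by
      intro n hn
      induction n, hn using Nat.le_induction with
      | base =>
        have := (hN n1 hn1).1
        rwa [h1, mul_zero] at this
      | succ n hn ih =>
        have h3 := (hN n (by omega)).2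
        have h4 : x n = 0 := by
          have := hΞ (u n)
          have h5 : Ξ * ‖u n‖ ≤ 0 := mul_nonpos_of_nonneg_of_nonpos hΞ0 ih
          exact le_antisymm (this.trans h5) (norm_nonneg _)
        rw [h4, mul_zero, zero_add] at h3
        linarith
    refine ⟨n1, fun n hn => ?_⟩
    have := h2 (n + 1) (by omega)
    have h3 : 0 ≤ 1 / 2 * ‖u n‖ := by positivity
    linarith
  rw [not_frequently] at hzero
  have hxpos : ∀ᶠ n in atTop, 0 < x n := by
    filter_upwards [hzero] with n hn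
    exact lt_of_le_of_ne (norm_nonneg _) (Ne.symm hn)
  have hxt : Tendsto x atTop (𝓝 0) := by
    have := ((hξc.tendsto 0).comp hut).norm
    simpa using this
  rcases hlam.lt_or_eq with hlt | heq
  · -- expanding
    exfalso
    set η := (‖lam‖ - 1) / 2 with hη
    have hη0 : 0 < η := by rw [hη]; linarith
    obtain ⟨N, hN⟩ := eventually_atTop.1 ((hF2 η hη0).and (hcone'.and hxpos))
    have h1 : ∀ n ≥ N, x n ≤ x (n + 1) := by
      intro n hn
      obtain ⟨h2, h3, _⟩ := hN n hn
      have h4 := (h2 h3).1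
      have h5 : ‖lam‖ - η = 1 + η := by rw [hη]; ring
      rw [h5] at h4
      exact le_of_mul_le_mul_left h4 (by linarith)
    have h2 : ∀ n ≥ N, x N ≤ x n := by
      intro n hn
      induction n, hn using Nat.le_induction with
      | base => exact le_rfl
      | succ n hn ih => exact ih.trans (h1 n hn)
    have h3 := ge_of_tendsto hxt (eventually_atTop.2 ⟨N, h2⟩)
    exact absurd (hN N le_rfl).2.2 (not_lt.2 h3)
  · right
    refine ⟨heq.symm, ?_⟩
    have hlam1 : ‖lam‖ = 1 := heq.symm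
    -- the scaling
    have hcO : (fun n => c n - 1) =O[atTop] x := by
      have h1 : ∀ᶠ n in atTop, c n - 1 = ℓ (T (u n)) + ℓ (R n) := by
        filter_upwards [hstep, (tendsto_add_atTop_nat 1).eventually hℓv] with n hn hn2
        have h1 : c n • v (n + 1) = z + T (u n) + R n := by
          rw [← hn]
          simp only [hR]
          abel
        have h4 := congrArg ℓ h1
        rw [map_smul, hn2, smul_eq_mul, mul_one, map_add, map_add, hℓz] at h4
        rw [h4]
        ring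
      have hux : u =O[atTop] x := by
        refine IsBigO.of_bound B ?_
        filter_upwards [hcone'] with n hn
        rwa [Real.norm_of_nonneg (norm_nonneg _)]
      have h2 : (fun n => ℓ (T (u n))) =O[atTop] x := by
        refine IsBigO.trans ?_ hux
        refine IsBigO.of_bound ‖LinearMap.toContinuousLinearMap (ℓ ∘ₗ T)‖ ?_
        filter_upwards with n
        exact (LinearMap.toContinuousLinearMap (ℓ ∘ₗ T)).le_opNorm (u n)
      have h3 : (fun n => ℓ (R n)) =O[atTop] x := by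
        have h5 : (fun n => ℓ (R n)) =O[atTop] R := by
          refine IsBigO.of_bound ‖LinearMap.toContinuousLinearMap ℓ‖ ?_
          filter_upwards with n
          exact (LinearMap.toContinuousLinearMap ℓ).le_opNorm (R n)
        refine (h5.trans hRO).trans ?_
        have h6 : (fun n => ‖u n‖ ^ 2) =O[atTop] fun n => ‖u n‖ * 1 := by
          simp_rw [pow_two]
          exact (isBigO_refl _ _).mul (hun.isBigO_one ℝ)
        refine h6.trans ?_
        simp only [mul_one]
        exact hux.norm_left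
      exact (h2.add h3).congr' (h1.mono fun n hn => hn.symm) (EventuallyEq.refl _ _)
    have hc2 : ∀ᶠ n in atTop, ‖c n - 1‖ ≤ 1 / 2 := by
      have h1 : Tendsto (fun n => ‖c n - 1‖) atTop (𝓝 0) := by
        have := (hct.sub_const 1).norm
        simpa using this
      exact (h1.eventually_lt_const (show (0 : ℝ) < 1 / 2 by norm_num)).mono fun n hn => hn.le
    obtain ⟨n₀, hn₀⟩ := eventually_atTop.1 (hc2.and (hstep.and hbb0))
    obtain ⟨S, hS1, hS2⟩ := exists_S D hD (fun n => c (n₀ + n)) (fun n => (hn₀ _ (by omega)).1)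
    have hDn : (0 : ℝ) < D := by positivity
    have hD2 : (2 : ℝ) ≤ D := by exact_mod_cast hD
    have hsh : Tendsto (fun n : ℕ => n₀ + n) atTop atTop := by
      simpa [add_comm] using tendsto_add_atTop_nat n₀
    have hSO : (fun n => S n) =O[atTop] fun n => x (n₀ + n) := by
      obtain ⟨C₁, hC₁0, hC₁⟩ := hcO.exists_nonneg
      rw [isBigOWith_iff] at hC₁
      obtain ⟨K, hK0, hK⟩ := backward (y := fun n => ‖S n‖) (a := fun n => x (n₀ + n)) (θ := 1 / 2)
        (ρ := 3 / 2) (C := 3 / 4 * C₁) (B := 1) (by norm_num) (by norm_num) (by norm_num)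
        (by norm_num) (by positivity) (Eventually.of_forall hS1)
        (Eventually.of_forall fun n => norm_nonneg _) (by
          filter_upwards [hsh.eventually hC₁] with n hn
          rw [Real.norm_of_nonneg (norm_nonneg _)] at hn
          have h1 : ‖Complex.log (c (n₀ + n))‖ ≤ 3 / 2 * ‖c (n₀ + n) - 1‖ := by
            have := Complex.norm_log_one_add_half_le_self (hn₀ (n₀ + n) (by omega)).1
            simpa using this
          have h2 : (D : ℝ) * ‖S n‖ ≤ ‖Complex.log (c (n₀ + n))‖ + ‖S (n + 1)‖ := by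
            have h3 := congrArg norm (hS2 n)
            rw [norm_mul, Complex.norm_natCast] at h3
            rw [h3]
            exact norm_add_le _ _
          have h4 : 2 * ‖S n‖ ≤ D * ‖S n‖ := mul_le_mul_of_nonneg_right hD2 (norm_nonneg _)
          linarith) (by
          filter_upwards [hsh.eventually (hF2 (1 / 5) (by norm_num)), hsh.eventually hcone']
            with n h1 h2
          have h3 := (h1 h2).2
          rw [hlam1] at h3
          have h4 : x (n₀ + (n + 1)) = x (n₀ + n + 1) := rfl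
          rw [h4]
          linarith)
      refine IsBigO.of_bound K ?_
      filter_upwards [hK] with n hn
      rwa [Real.norm_of_nonneg (norm_nonneg _)]
    set σ : ℕ → ℂ := fun n => Complex.exp (-S n) with hσ
    have hκ0 : ∀ n, c (n₀ + n) ≠ 0 := by
      intro n h
      have := (hn₀ (n₀ + n) (by omega)).1
      rw [h, zero_sub, norm_neg, norm_one] at this
      norm_num at this
    have hσr : ∀ n, σ (n + 1) = c (n₀ + n) * σ n ^ D := by
      intro n
      simp only [hσ]
      rw [← Complex.exp_nat_mul]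
      have h1 : (D : ℂ) * -S n = -Complex.log (c (n₀ + n)) + -S (n + 1) := by
        have := hS2 n
        linear_combination -this
      rw [h1, Complex.exp_add, Complex.exp_neg (Complex.log (c (n₀ + n))),
        Complex.exp_log (hκ0 n), ← mul_assoc, mul_inv_cancel₀ (hκ0 n), one_mul]
    have hσO : (fun n => σ n - 1) =O[atTop] fun n => x (n₀ + n) := by
      refine IsBigO.trans ?_ hSO
      refine IsBigO.of_bound 2 ?_
      filter_upwards with n
      have h1 := Complex.norm_exp_sub_one_le (x := -S n) (by rw [norm_neg]; exact hS1 n)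
      rwa [norm_neg] at h1
    have hxt' : Tendsto (fun n => x (n₀ + n)) atTop (𝓝 0) := hxt.comp hsh
    have hσt : Tendsto σ atTop (𝓝 1) := by
      have h1 := hσO.trans_tendsto hxt'
      have := h1.add_const 1
      simpa using this
    set Z : ℕ → Fin M → ℂ := fun n => σ n • v (n₀ + n) with hZ
    have hZt : Tendsto Z atTop (𝓝 z) := by
      have := hσt.smul (hvt.comp hsh)
      rwa [one_smul] at this
    have hZX : ∀ n, Z n = (σ n * bb (n₀ + n)) • X (n₀ + n) := by
      intro n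
      simp only [hZ]
      rw [hvb, smul_smul]
    have hZr : ∀ n, Z (n + 1) = vl G (Z n) := by
      intro n
      have e1 : Z (n + 1) = (c (n₀ + n) * σ n ^ D) • v (n₀ + n + 1) := by
        show σ (n + 1) • v (n₀ + (n + 1)) = _
        rw [hσr]
        rfl
      have e2 : vl G (Z n) = (c (n₀ + n) * σ n ^ D) • v (n₀ + n + 1) := by
        show vl G (σ n • v (n₀ + n)) = _
        rw [vl_smul hG, (hn₀ (n₀ + n) (by omega)).2.1, smul_smul, mul_comm]
      rw [e1, e2]
    have hZξ : ∀ n, ξ (Z n - z) = σ n * ξ (u (n₀ + n)) := by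
      intro n
      simp only [hZ, hu]
      rw [map_sub, map_sub, map_smul, hξz, sub_zero, sub_zero, smul_eq_mul]
    have hσ2 : ∀ᶠ n in atTop, 1 / 2 < ‖σ n‖ := by
      have := hσt.norm
      rw [norm_one] at this
      exact this.eventually_const_lt (by norm_num)
    refine ⟨n₀, fun n => σ n * bb (n₀ + n), fun n => mul_ne_zero (Complex.exp_ne_zero _)
      (hn₀ (n₀ + n) (by omega)).2.2, ?_⟩
    have hfun : (fun n => (σ n * bb (n₀ + n)) • X (n₀ + n)) = Z := funext fun n => (hZX n).symm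
    rw [hfun]
    refine ⟨fun i => congrFun hz i, hZr, hZt, hlam1, heig, ?_, ?_⟩
    · have h1 : (fun n => Z n - z) =O[atTop] fun n => x (n₀ + n) := by
        have h2 : (fun n => Z n - z) = fun n => σ n • u (n₀ + n) + (σ n - 1) • z := by
          funext n
          simp only [hZ, hu]
          module
        rw [h2]
        have h3 : (fun n => u (n₀ + n)) =O[atTop] fun n => x (n₀ + n) := by
          refine IsBigO.of_bound B ?_
          filter_upwards [hsh.eventually hcone'] with n hn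
          rwa [Real.norm_of_nonneg (norm_nonneg _)]
        have h4 : (fun n => σ n • u (n₀ + n)) =O[atTop] fun n => (1 : ℝ) • x (n₀ + n) :=
          (hσt.isBigO_one ℝ).smul h3
        have h5 : (fun n => (σ n - 1) • z) =O[atTop] fun n => x (n₀ + n) • (1 : ℝ) :=
          hσO.smul (isBigO_const_const z one_ne_zero _)
        simp only [smul_eq_mul, mul_one, one_mul] at h4 h5
        exact h4.add h5
      refine h1.trans ?_
      refine IsBigO.of_bound 2 ?_
      filter_upwards [hσ2] with n hn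
      rw [Real.norm_of_nonneg (norm_nonneg _), norm_norm, hZξ, norm_mul]
      have h6 : 0 ≤ x (n₀ + n) := norm_nonneg _
      have h7 : x (n₀ + n) = ‖ξ (u (n₀ + n))‖ := rfl
      rw [← h7]
      nlinarith
    · filter_upwards [hsh.eventually hxpos] with n hn h
      rw [hZξ] at h
      rcases mul_eq_zero.1 h with h1 | h1
      · exact Complex.exp_ne_zero _ h1
      · have h2 : x (n₀ + n) = 0 := by
          show ‖ξ (u (n₀ + n))‖ = 0
          rw [h1, norm_zero]
        exact absurd h2 hn.ne'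

end Pool.Agent.SP82
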