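import Mathlib
import Pool.Agent.SP82.C
import Pool.Agent.KS6_82.Att.Near
import Pool.Agent.KS6_82.Crv.Trf

/-!
# The linear part: one multiplier which is not attracting
-/

set_option autoImplicit false

namespace Pool.Agent.SP82

open Filter Topology Asymptotics MvPolynomial Pool.Agent.KS6_82.Crv Pool.Agent.KS6_82.Att

variable {M m : ℕ}

/-- The product of the `T - μ_i` is of rank one modulo `z`, and `T` acts by `lam` on its image. -/
structure Semi (T : Module.End ℂ (Fin M → ℂ)) (z : Fin M → ℂ) (μ : Fin m → ℂ) (lam : ℂ)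
    (ξ : (Fin M → ℂ) →ₗ[ℂ] ℂ) (e : Fin M → ℂ) : Prop where
  small : ∀ i, ‖μ i‖ < 1
  big : 1 ≤ ‖lam‖
  ne : ∀ c : ℂ, e ≠ c • z
  img : ∀ v, ∃ c : ℂ, Polynomial.aeval T (∏ i, (Polynomial.X - Polynomial.C (μ i))) v =
    ξ v • e + c • z
  eig : ∃ c : ℂ, T e = lam • e + c • z

variable {T : Module.End ℂ (Fin M → ℂ)} {z e : Fin M → ℂ} {μ : Fin m → ℂ} {lam D : ℂ}
  {ξ : (Fin M → ℂ) →ₗ[ℂ] ℂ}

lemma Semi.coef (h : Semi T z μ lam ξ e) {a b : ℂ} (hab : a • e = b • z) : a = 0 := by
  by_contra ha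
  apply h.ne (a⁻¹ * b)
  rw [mul_smul, ← hab, smul_smul, inv_mul_cancel₀ ha, one_smul]

lemma aeval_comm (T : Module.End ℂ (Fin M → ℂ)) (P : Polynomial ℂ) (v : Fin M → ℂ) :
    Polynomial.aeval T P (T v) = T (Polynomial.aeval T P v) := by
  have h1 : Polynomial.aeval T (P * Polynomial.X) = Polynomial.aeval T (Polynomial.X * P) := by
    rw [mul_comm]
  rw [map_mul, map_mul, Polynomial.aeval_X] at h1
  exact DFunLike.congr_fun h1 v

lemma Semi.xi_z (h : Semi T z μ lam ξ e) (hT : T z = D • z) : ξ z = 0 := by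
  obtain ⟨c, hc⟩ := h.img z
  rw [aeval_eigen hT] at hc
  refine h.coef (b := Polynomial.eval D (∏ i, (Polynomial.X - Polynomial.C (μ i))) - c) ?_
  rw [sub_smul, hc]
  abel

lemma Semi.xi_eig (h : Semi T z μ lam ξ e) (hT : T z = D • z) (w : Fin M → ℂ) :
    ξ (T w) = lam * ξ w := by
  obtain ⟨c, hc⟩ := h.img w
  obtain ⟨c', hc'⟩ := h.img (T w)
  obtain ⟨c'', hc''⟩ := h.eig
  rw [aeval_comm, hc, map_add, map_smul, map_smul, hc'', hT] at hc'
  have h1 : (ξ (T w) - lam * ξ w) • e = (ξ w * c'' + c * D - c') • z := by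
    have h2 : ξ w • (lam • e + c'' • z) + c • D • z - ξ (T w) • e - c' • z = 0 := by
      rw [hc']
      abel
    have h3 : (ξ (T w) - lam * ξ w) • e - (ξ w * c'' + c * D - c') • z =
        -(ξ w • (lam • e + c'' • z) + c • D • z - ξ (T w) • e - c' • z) := by
      module
    rw [h2, neg_zero] at h3
    exact sub_eq_zero.1 h3
  have h4 := h.coef h1
  exact sub_eq_zero.1 h4

/-- the value of polynomials at `e` modulo `z` -/
lemma Semi.aeval_e (h : Semi T z μ lam ξ e) (hT : T z = D • z) (P : Polynomial ℂ) :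
    ∃ c : ℂ, Polynomial.aeval T P e = P.eval lam • e + c • z := by
  obtain ⟨c'', hc''⟩ := h.eig
  induction P using Polynomial.induction_on' with
  | add p q hp hq =>
    obtain ⟨a, ha⟩ := hp
    obtain ⟨b, hb⟩ := hq
    refine ⟨a + b, ?_⟩
    rw [map_add, LinearMap.add_apply, ha, hb, Polynomial.eval_add]
    module
  | monomial k b =>
    have h1 : ∃ c : ℂ, (T ^ k) e = lam ^ k • e + c • z := by
      induction k with
      | zero => exact ⟨0, by simp⟩
      | succ k ih =>
        obtain ⟨c, hc⟩ := ih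
        refine ⟨lam ^ k * c'' + c * D, ?_⟩
        rw [pow_succ', Module.End.mul_apply, hc, map_add, map_smul, map_smul, hc'', hT]
        module
    obtain ⟨c, hc⟩ := h1
    refine ⟨b * c, ?_⟩
    rw [Polynomial.aeval_monomial, Module.End.mul_apply, hc, Module.algebraMap_end_apply,
      Polynomial.eval_monomial]
    module

lemma Semi.xi_e (h : Semi T z μ lam ξ e) (hT : T z = D • z) : ξ e ≠ 0 := by
  obtain ⟨c, hc⟩ := h.img e
  obtain ⟨c', hc'⟩ := h.aeval_e hT (∏ i, (Polynomial.X - Polynomial.C (μ i)))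
  rw [hc'] at hc
  have h1 : (Polynomial.eval lam (∏ i, (Polynomial.X - Polynomial.C (μ i))) - ξ e) • e =
      (c - c') • z := by
    rw [sub_smul, sub_smul, sub_eq_sub_iff_add_eq_add, hc]
    abel
  have h2 := sub_eq_zero.1 (h.coef h1)
  rw [← h2, Polynomial.eval_prod]
  apply Finset.prod_ne_zero_iff.2
  intro i _ h3
  rw [Polynomial.eval_sub, Polynomial.eval_X, Polynomial.eval_C, sub_eq_zero] at h3
  have h4 := h.small i
  rw [← h3] at h4
  exact absurd h.big (not_le.2 h4)

/-- a power of `T` is nearly of rank two -/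
lemma Semi.power (h : Semi T z μ lam ξ e) (hT : T z = D • z) (hD : 1 ≤ ‖D‖) {ε : ℝ} (hε : 0 < ε) :
    ∃ p : ℕ, 1 ≤ p ∧ ∃ (a : (Fin M → ℂ) →ₗ[ℂ] ℂ) (g : Fin M → ℂ),
      ∀ v, ‖(T ^ p) v - a v • z - ξ v • g‖ ≤ ε * ‖v‖ := by
  classical
  have hξe := h.xi_e hT
  have hξz := h.xi_z hT
  obtain ⟨c₀, hc₀⟩ := h.eig
  set T' : Module.End ℂ (Fin M → ℂ) := T - (ξ.smulRight ((lam / ξ e) • e)) with hT'
  have hT'a : ∀ v, T' v = T v - (ξ v * (lam / ξ e)) • e := by
    intro v
    rw [hT', LinearMap.sub_apply, LinearMap.smulRight_apply, smul_smul]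
  have hT'z : T' z = D • z := by rw [hT'a, hξz, zero_mul, zero_smul, sub_zero, hT]
  have hT'e : T' e = c₀ • z := by
    rw [hT'a, mul_div_cancel₀ _ hξe, hc₀]
    abel
  -- on the kernel of `ξ`
  have hker : ∀ (P : Polynomial ℂ) (v : Fin M → ℂ), ξ v = 0 →
      Polynomial.aeval T' P v = Polynomial.aeval T P v ∧ ξ (Polynomial.aeval T P v) = 0 := by
    intro P v hv
    induction P using Polynomial.induction_on' with
    | add p q hp hq =>
      rw [map_add, map_add, LinearMap.add_apply, LinearMap.add_apply, map_add, hp.1, hq.1, hp.2,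
        hq.2, add_zero]
      exact ⟨rfl, rfl⟩
    | monomial k b =>
      have h1 : (T' ^ k) v = (T ^ k) v ∧ ξ ((T ^ k) v) = 0 := by
        induction k with
        | zero => exact ⟨rfl, hv⟩
        | succ k ih =>
          rw [pow_succ', pow_succ', Module.End.mul_apply, Module.End.mul_apply, ih.1, hT'a, ih.2,
            zero_mul, zero_smul, sub_zero, h.xi_eig hT, ih.2, mul_zero]
          exact ⟨rfl, rfl⟩
      rw [Polynomial.aeval_monomial, Polynomial.aeval_monomial, Module.End.mul_apply,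
        Module.End.mul_apply, Module.algebraMap_end_apply, Module.algebraMap_end_apply, h1.1,
        map_smul, h1.2, smul_zero]
      exact ⟨rfl, rfl⟩
  have hkills : Kills T' z (Fin.cons 0 μ : Fin (m + 1) → ℂ) := by
    intro v
    have hPx : (∏ i, (Polynomial.X - Polynomial.C ((Fin.cons 0 μ : Fin (m + 1) → ℂ) i))) =
        (∏ i, (Polynomial.X - Polynomial.C (μ i))) * Polynomial.X := by
      rw [Fin.prod_univ_succ, mul_comm]
      simp
    set P : Polynomial ℂ := ∏ i, (Polynomial.X - Polynomial.C (μ i)) with hP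
    set w := v - (ξ v / ξ e) • e with hw
    have hwξ : ξ w = 0 := by
      rw [hw, map_sub, map_smul, smul_eq_mul, div_mul_cancel₀ _ hξe, sub_self]
    have hvw : v = w + (ξ v / ξ e) • e := by rw [hw]; abel
    have h1 : ∃ c : ℂ, Polynomial.aeval T' (P * Polynomial.X) w = c • z := by
      rw [mul_comm, map_mul, Polynomial.aeval_X, Module.End.mul_apply, (hker P w hwξ).1]
      obtain ⟨c, hc⟩ := h.img w
      rw [hc, hwξ, zero_smul, zero_add, map_smul, hT'z, smul_smul]
      exact ⟨_, rfl⟩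
    have h2 : ∃ c : ℂ, Polynomial.aeval T' (P * Polynomial.X) e = c • z := by
      rw [map_mul, Polynomial.aeval_X, Module.End.mul_apply, hT'e, map_smul, aeval_eigen hT'z,
        smul_smul]
      exact ⟨_, rfl⟩
    obtain ⟨c1, hc1⟩ := h1
    obtain ⟨c2, hc2⟩ := h2
    refine ⟨c1 + (ξ v / ξ e) * c2, ?_⟩
    rw [hPx]
    nth_rewrite 1 [hvw]
    rw [map_add, map_smul, hc1, hc2]
    module
  have hμ' : ∀ i, ‖(Fin.cons 0 μ : Fin (m + 1) → ℂ) i‖ < 1 := by
    intro i
    refine Fin.cases ?_ (fun j => ?_) i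
    · simp
    · simpa using h.small j
  obtain ⟨p, hp1, a, ha⟩ := exists_power hT'z hD hμ' hkills hε
  have hpow : ∀ k : ℕ, ∃ b : (Fin M → ℂ) →ₗ[ℂ] ℂ, ∀ v,
      (T ^ (k + 1)) v = (T' ^ (k + 1)) v + (ξ v * (lam ^ (k + 1) / ξ e)) • e + b v • z := by
    intro k
    induction k with
    | zero =>
      refine ⟨0, fun v => ?_⟩
      simp only [zero_add, pow_one, LinearMap.zero_apply, zero_smul, add_zero]
      rw [hT'a]
      abel
    | succ k ih =>
      obtain ⟨b, hb⟩ := ih
      refine ⟨(lam ^ (k + 1) / ξ e * c₀) • ξ + D • b - (lam / ξ e * 0) • ξ, fun v => ?_⟩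
      have h3 : ξ ((T' ^ (k + 1)) v) = 0 := by
        have h4 : ∀ x, ξ (T' x) = 0 := by
          intro x
          rw [hT'a, map_sub, map_smul, h.xi_eig hT, smul_eq_mul]
          field_simp
          ring
        rw [pow_succ', Module.End.mul_apply]
        exact h4 _
      rw [pow_succ', Module.End.mul_apply, hb, map_add, map_add, map_smul, map_smul, hT, hc₀,
        pow_succ' T' (k + 1), Module.End.mul_apply, hT'a ((T' ^ (k + 1)) v), h3]
      simp only [LinearMap.sub_apply, LinearMap.add_apply, LinearMap.smul_apply, smul_eq_mul,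
        mul_zero, zero_mul, zero_smul, sub_zero]
      rw [pow_succ lam (k + 1)]
      module
  obtain ⟨k, rfl⟩ := Nat.exists_eq_add_of_le' hp1
  obtain ⟨b, hb⟩ := hpow k
  refine ⟨k + 1, hp1, a + b, (lam ^ (k + 1) / ξ e) • e, fun v => ?_⟩
  have h5 : (T ^ (k + 1)) v - (a + b) v • z - ξ v • (lam ^ (k + 1) / ξ e) • e =
      (T' ^ (k + 1)) v - a v • z := by
    rw [hb, LinearMap.add_apply]
    module
  rw [h5]
  exact ha v

/-- the eigenvector can be chosen exactly -/
lemma Semi.exact (h : Semi T z μ lam ξ e) (hT : T z = D • z) (hD : lam ≠ D) :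
    ∃ e' : Fin M → ℂ, ∀ v, Polynomial.aeval T ((Polynomial.X - Polynomial.C D) *
      ∏ i, (Polynomial.X - Polynomial.C (μ i))) v = ξ v • e' := by
  refine ⟨T e - D • e, fun v => ?_⟩
  obtain ⟨c, hc⟩ := h.img v
  rw [map_mul, Module.End.mul_apply, hc, map_sub, Polynomial.aeval_X, Polynomial.aeval_C,
    LinearMap.sub_apply, Module.algebraMap_end_apply, map_add, map_smul, map_smul, hT]
  module

end Pool.Agent.SP82
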