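import Mathlib
import Pool.Agent.SP82.D
import Pool.Agent.KS6_82.Crv.Asm

/-!
# Assembly
-/

set_option autoImplicit false

namespace Pool.Agent.SP82

open Filter Topology Asymptotics MvPolynomial Pool.Agent.KS6_82.Crv Pool.Agent.KS6_82.Att

variable {M m : ℕ}

section linear

variable {T : Module.End ℂ (Fin M → ℂ)} {z e : Fin M → ℂ} {μ : Fin m → ℂ} {lam D : ℂ}
  {ξ : (Fin M → ℂ) →ₗ[ℂ] ℂ}

lemma Semi.xi_pow (h : Semi T z μ lam ξ e) (hT : T z = D • z) (p : ℕ) (w : Fin M → ℂ) :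
    ξ ((T ^ p) w) = lam ^ p * ξ w := by
  induction p with
  | zero => simp
  | succ p ih => rw [pow_succ', Module.End.mul_apply, h.xi_eig hT, ih, pow_succ']; ring

lemma list_prod (p : ℕ) (D : ℂ) (μ : Fin m → ℂ) :
    (((D ^ p :: List.ofFn fun i => μ i ^ p).map fun ν => Polynomial.X - Polynomial.C ν).prod :
      Polynomial ℂ) = (Polynomial.X - Polynomial.C (D ^ p)) *
        ∏ i, (Polynomial.X - Polynomial.C (μ i ^ p)) := by
  rw [List.map_cons, List.prod_cons, List.map_ofFn, List.prod_ofFn]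
  rfl

lemma Semi.list_pow (h : Semi T z μ lam ξ e) (hT : T z = D • z) (hD : lam ≠ D) (p : ℕ) :
    ∃ e' : Fin M → ℂ, ∀ w, Polynomial.aeval (T ^ p)
      ((D ^ p :: List.ofFn fun i => μ i ^ p).map fun ν => Polynomial.X - Polynomial.C ν).prod w =
        ξ w • e' := by
  obtain ⟨e₁, he₁⟩ := h.exact hT hD
  have hdvd : ∀ a : ℂ, (Polynomial.X - Polynomial.C a : Polynomial ℂ) ∣
      Polynomial.X ^ p - Polynomial.C (a ^ p) := by
    intro a
    rw [map_pow]
    exact sub_dvd_pow_sub_pow _ _ p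
  have h1 : ((Polynomial.X - Polynomial.C D) * ∏ i, (Polynomial.X - Polynomial.C (μ i)) :
      Polynomial ℂ) ∣ (Polynomial.X ^ p - Polynomial.C (D ^ p)) *
        ∏ i, (Polynomial.X ^ p - Polynomial.C (μ i ^ p)) :=
    mul_dvd_mul (hdvd D) (Finset.prod_dvd_prod_of_dvd _ _ fun i _ => hdvd (μ i))
  obtain ⟨R, hR⟩ := h1
  refine ⟨Polynomial.aeval T R e₁, fun w => ?_⟩
  rw [list_prod]
  have h2 : Polynomial.aeval (T ^ p) ((Polynomial.X - Polynomial.C (D ^ p)) *
      ∏ i, (Polynomial.X - Polynomial.C (μ i ^ p))) = Polynomial.aeval T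
        ((Polynomial.X ^ p - Polynomial.C (D ^ p)) *
          ∏ i, (Polynomial.X ^ p - Polynomial.C (μ i ^ p))) := by
    have h3 : ((Polynomial.X ^ p - Polynomial.C (D ^ p)) *
          ∏ i, (Polynomial.X ^ p - Polynomial.C (μ i ^ p)) : Polynomial ℂ) =
        ((Polynomial.X - Polynomial.C (D ^ p)) *
          ∏ i, (Polynomial.X - Polynomial.C (μ i ^ p))).comp (Polynomial.X ^ p) := by
      rw [Polynomial.mul_comp, Polynomial.prod_comp]
      simp
    have h4 : Polynomial.aeval T (Polynomial.X ^ p : Polynomial ℂ) = T ^ p := by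
      rw [map_pow, Polynomial.aeval_X]
    rw [h3, Polynomial.aeval_comp, h4]
  rw [h2, hR, mul_comm, map_mul, Module.End.mul_apply, he₁, map_smul]

lemma Semi.kills (h : Semi T z μ lam ξ e) (hT : T z = D • z) :
    Kills T z (Fin.cons lam μ : Fin (m + 1) → ℂ) := by
  intro v
  obtain ⟨c, hc⟩ := h.img v
  obtain ⟨c', hc'⟩ := h.eig
  refine ⟨ξ v * c' + c * (D - lam), ?_⟩
  rw [Fin.prod_univ_succ]
  simp only [Fin.cons_zero, Fin.cons_succ]
  rw [map_mul, Module.End.mul_apply, hc, map_sub, Polynomial.aeval_X, Polynomial.aeval_C,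
    LinearMap.sub_apply, Module.algebraMap_end_apply, map_add, map_smul, map_smul, hc', hT]
  module

end linear

lemma compat_cons {μ : Fin m → ℂ} {lam : ℂ} (hlam : 1 ≤ ‖lam‖) (h : Compat μ) :
    Compat (Fin.cons lam μ : Fin (m + 1) → ℂ) := by
  intro a b hab hn
  have h0 := hab 0 (Or.inr (by simpa using hlam))
  have h1 : ∀ c : Fin (m + 1) → ℕ, c 0 = 0 →
      ∏ i, (Fin.cons lam μ : Fin (m + 1) → ℂ) i ^ c i = ∏ i, μ i ^ c i.succ := by
    intro c hc
    rw [Fin.prod_univ_succ, hc, pow_zero, one_mul]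
    simp
  rw [h1 a h0.1, h1 b h0.2] at hn ⊢
  refine h (fun i => a i.succ) (fun i => b i.succ) (fun i hi => ?_) hn
  exact hab i.succ (by simpa using hi)

/-- Vanishing is invariant under scaling. -/
lemma vanish_smul {S : Set (MvPolynomial (Fin M) ℂ)} (hS : ∀ g ∈ S, ∃ e : ℕ, g.IsHomogeneous e)
    {a : ℂ} (ha : a ≠ 0) (x : Fin M → ℂ) :
    (∀ g ∈ S, eval (a • x) g = 0) ↔ ∀ g ∈ S, eval x g = 0 := by
  constructor
  · intro h g hg
    obtain ⟨e, he⟩ := hS g hg
    have := h g hg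
    rw [eval_hom he] at this
    exact (mul_eq_zero.1 this).resolve_left (pow_ne_zero _ ha)
  · intro h g hg
    obtain ⟨e, he⟩ := hS g hg
    rw [eval_hom he, h g hg, mul_zero]

/-- **Slow convergence or exponential convergence.** -/
theorem main_slow {f : Fin M → MvPolynomial (Fin M) ℂ} {d l : ℕ} (hd : 2 ≤ d) (hl : 1 ≤ l)
    (hf : ∀ i, (f i).IsHomogeneous d) {z : Fin M → ℂ} (hz0 : z ≠ 0) (hz : (vl f)^[l] z = z)
    {μ : Fin m → ℂ} {lam : ℂ} {ξ : (Fin M → ℂ) →ₗ[ℂ] ℂ} {e : Fin M → ℂ}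
    (hS : Semi (linT z (itp f l)) z μ lam ξ e) {α : Fin M → ℂ} {s : ℕ → ℂ}
    (hs : Tendsto (fun n => s n • (vl f)^[l * n] α) atTop (𝓝 z)) :
    (∃ (s' : ℕ → ℂ) (C r : ℝ), r < 1 ∧ ∀ n, ‖s' n • (vl f)^[l * n] α - z‖ ≤ C * r ^ n) ∨
    ∀ S : Set (MvPolynomial (Fin M) ℂ), (∀ g ∈ S, ∃ e : ℕ, g.IsHomogeneous e) →
      ringKrullDim (MvPolynomial (Fin M) ℂ ⧸ Ideal.span S) ≤ 2 →
      FiniteUnionAP {n : ℕ | ∀ g ∈ S, eval ((vl f)^[n] α) g = 0} := by
  classical
  set T := linT z (itp f l) with hT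
  have hTz : T z = ((d ^ l : ℕ) : ℂ) • z := euler (itp_hom hf l) (by rw [vl_itp, hz])
  have hdl : 2 ≤ d ^ l := hd.trans (Nat.le_self_pow (by omega) d)
  have hD1 : (1 : ℝ) ≤ ‖((d ^ l : ℕ) : ℂ)‖ := by
    rw [Complex.norm_natCast]
    exact_mod_cast (by omega : 1 ≤ d ^ l)
  obtain ⟨p, hp1, a, g, hpow⟩ := hS.power hTz hD1 (show (0 : ℝ) < 1 / 32 by norm_num)
  set L := l * p with hL
  have hL1 : 1 ≤ L := Nat.mul_pos hl hp1
  set G := itp f L with hG
  set D := d ^ L with hD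
  have hD2 : 2 ≤ D := hd.trans (Nat.le_self_pow (by omega) d)
  have hGhom : ∀ i, (G i).IsHomogeneous D := itp_hom hf L
  have hzL : (vl f)^[L] z = z := by
    rw [hL, Function.iterate_mul]
    exact Function.iterate_fixed hz p
  have hzG : vl G z = z := by rw [hG, vl_itp, hzL]
  have hTG : linT z G = T ^ p := linT_iterate f l p z hz
  set X' : ℕ → Fin M → ℂ := fun n => (vl f)^[L * n] α with hX'
  have hX : ∀ n, X' (n + 1) = vl G (X' n) := by
    intro n
    rw [hG, vl_itp, hX']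
    simp only
    rw [← Function.iterate_add_apply]
    congr 1
    ring
  have hs' : Tendsto (fun n => s (p * n) • X' n) atTop (𝓝 z) := by
    have h1 : Tendsto (fun n : ℕ => p * n) atTop atTop := tendsto_id.const_mul_atTop' hp1
    have h2 := hs.comp h1
    refine h2.congr fun n => ?_
    simp only [Function.comp_apply, hX', hL]
    rw [mul_assoc]
  have hfs := slow_or_fast (lam := lam ^ p) hD2 hGhom hz0 hzG hX hs' (ξ := ξ)
    (by rw [norm_pow]; exact one_le_pow₀ hS.big)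
    (fun w => by rw [hTG]; exact hS.xi_pow hTz p w) (hS.xi_z hTz) (g := g) (a := a)
    (fun v => by rw [hTG]; exact hpow v)
  rcases hfs with ⟨s', C, hC⟩ | ⟨hlam, n₀, b, hb0, hslow⟩
  · left
    obtain ⟨s'', K, r, _, hr1, hr⟩ := conv_of_mul hp1 hf hz hC
    exact ⟨s'', K, r, hr1, hr⟩
  right
  intro S hSh hdim
  set Z : ℕ → Fin M → ℂ := fun n => b n • X' (n₀ + n) with hZ
  have hlam1 : ‖lam‖ = 1 := by
    rw [norm_pow] at hlam
    exact (pow_eq_one_iff_of_nonneg (norm_nonneg _) (by omega)).1 hlam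
  have hne : lam ≠ ((d ^ l : ℕ) : ℂ) := by
    intro h
    rw [h, Complex.norm_natCast] at hlam1
    have : d ^ l = 1 := by exact_mod_cast hlam1
    omega
  obtain ⟨e', he'⟩ := hS.list_pow hTz hne p
  obtain ⟨hQ, hqO, hqO', hexp⟩ := slow_expansions hslow _ (fun ν hν => by
    rcases List.mem_cons.1 hν with rfl | hν
    · rw [norm_pow, Complex.norm_natCast]
      have h1 : (1 : ℝ) < ((d ^ l : ℕ) : ℝ) := by exact_mod_cast (by omega : 1 < d ^ l)
      exact (one_lt_pow₀ h1 (show p ≠ 0 by omega)).ne'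
    · obtain ⟨i, rfl⟩ := (List.mem_ofFn' _ _).1 hν
      rw [norm_pow]
      exact (pow_lt_one₀ (norm_nonneg _) (hS.small i) (show p ≠ 0 by omega)).ne)
    (fun w => by rw [hTG]; exact he' w)
  set Q : ℕ → ℂ := fun n => ξ (Z n - z) with hQdef
  have hQ0 : ∀ᶠ n in atTop, Q n ≠ 0 := hslow.ne
  have hev : ∀ (h : MvPolynomial (Fin M) ℂ) (k : ℕ), QE Q k fun n => eval (Z n) h := fun h k =>
    qe_eval hQ (hexp k) h
  obtain ⟨g₀, e₀, hg₀, hg₀z, hg₀n⟩ := slow_ns hD2 hGhom hz0 hslow hQ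
  have hZr : ∀ n, Z (n + 1) = (vl f)^[L] (Z n) := by
    intro n
    have := hslow.step n
    rw [this, hG, vl_itp]
  apply ap_of_classes _ L hL1
  intro c hc
  set Y : ℕ → Fin M → ℂ := fun n => (vl f)^[c] (Z n) with hY
  set w := (vl f)^[c] z with hw
  have hYc : ∀ n, Y n = b n ^ d ^ c • (vl f)^[L * (n₀ + n) + c] α := by
    intro n
    rw [hY]
    simp only [hZ]
    rw [smul_iter hf, hX']
    simp only
    rw [← Function.iterate_add_apply, add_comm]
  have hvc : ∀ k : ℕ, Continuous ((vl f)^[k]) := by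
    intro k
    apply Continuous.iterate
    apply continuous_pi
    intro i
    exact continuous_eval (f i)
  have hcl := qe_class (Z := Y) (z := w) (Q := Q) hSh hdim hGhom (ne_iter hd hl hf hz0 hz c)
    (fun n => by
      rw [hG, vl_itp, hY]
      simp only
      rw [hZr, ← Function.iterate_add_apply, ← Function.iterate_add_apply, add_comm])
    (((hvc c).tendsto z).comp hslow.lim) hQ hQ0 hqO
    (fun h k => by
      have h1 : (fun n => eval (Y n) h) = fun n => eval (Z n) (bind₁ (itp f c) h) := by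
        funext n
        rw [eval_bind, vl_itp]
      rw [h1]
      exact hev _ k) ?_
  · have hiff : ∀ n, (∀ g ∈ S, eval (Y n) g = 0) ↔
        ∀ g ∈ S, eval ((vl f)^[L * (n₀ + n) + c] α) g = 0 := by
      intro n
      rw [hYc]
      exact vanish_smul hSh (pow_ne_zero _ (hb0 n)) _
    have hmap : ∀ P : ℕ → Prop, (∀ᶠ n in atTop, P (n₀ + n)) → ∀ᶠ n in atTop, P n := by
      intro P hP
      obtain ⟨N, hN⟩ := eventually_atTop.1 hP
      refine eventually_atTop.2 ⟨n₀ + N, fun n hn => ?_⟩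
      have := hN (n - n₀) (by omega)
      rwa [Nat.add_sub_cancel' (by omega)] at this
    rcases hcl with h | h
    · left
      apply hmap
      filter_upwards [h] with n hn
      exact (hiff n).1 hn
    · right
      apply hmap
      filter_upwards [h] with n hn
      exact fun h1 => hn ((hiff n).2 h1)
  · obtain ⟨t, ht⟩ := Nat.exists_eq_add_of_le hc.le
    refine ⟨bind₁ (itp f t) g₀, d ^ t * e₀, ?_, ?_, ?_⟩
    · exact hg₀.aeval _ (itp_hom hf t)
    · rw [eval_bind, vl_itp, hw, ← Function.iterate_add_apply, add_comm, ← ht, hzL]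
      exact hg₀z
    · intro hflat
      apply hg₀n
      have h1 : ∀ n, eval (Y n) (bind₁ (itp f t) g₀) = eval (Z (n + 1)) g₀ := by
        intro n
        rw [eval_bind, vl_itp, hY]
        simp only
        rw [← Function.iterate_add_apply, add_comm, ← ht, hZr]
      intro k
      have h2 := hflat k
      simp_rw [h1] at h2
      have h3 : (fun n => eval (Z (n + 1)) g₀) =O[atTop] fun n => Q (n + 1) ^ k :=
        h2.trans (hqO'.pow k)
      obtain ⟨K, hK⟩ := h3.bound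
      refine IsBigO.of_bound K ?_
      obtain ⟨N, hN⟩ := eventually_atTop.1 hK
      refine eventually_atTop.2 ⟨N + 1, fun n hn => ?_⟩
      have := hN (n - 1) (by omega)
      rwa [Nat.sub_add_cancel (by omega)] at this

/-- **All convergent orbits**: closed sets of dimension at most one. -/
theorem main_semi {f : Fin M → MvPolynomial (Fin M) ℂ} {d l : ℕ} (hd : 2 ≤ d) (hl : 1 ≤ l)
    (hf : ∀ i, (f i).IsHomogeneous d) {z : Fin M → ℂ} (hz0 : z ≠ 0) (hz : (vl f)^[l] z = z)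
    {μ : Fin m → ℂ} {lam : ℂ} {ξ : (Fin M → ℂ) →ₗ[ℂ] ℂ} {e : Fin M → ℂ}
    (hS : Semi (linT z (itp f l)) z μ lam ξ e) (hC : Compat μ) {α : Fin M → ℂ} {s : ℕ → ℂ}
    (hs : Tendsto (fun n => s n • (vl f)^[l * n] α) atTop (𝓝 z))
    (hSZ : (linT z (itp f l)).charpoly.rootMultiplicity 0 ≤ 1 ∨ ¬ Super (fun n => (vl f)^[l * n] α) z)
    {S : Set (MvPolynomial (Fin M) ℂ)} (hSh : ∀ g ∈ S, ∃ e : ℕ, g.IsHomogeneous e)
    (hdim : ringKrullDim (MvPolynomial (Fin M) ℂ ⧸ Ideal.span S) ≤ 2) :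
    FiniteUnionAP {n : ℕ | ∀ g ∈ S, eval ((vl f)^[n] α) g = 0} := by
  have hTz : (linT z (itp f l)) z = ((d ^ l : ℕ) : ℂ) • z :=
    euler (itp_hom hf l) (by rw [vl_itp, hz])
  rcases main_slow hd hl hf hz0 hz hS hs with ⟨s', C, r, hr, h⟩ | h
  · exact main_curves hd hl hf hz0 hz (hS.kills hTz) (compat_cons hS.big hC) hr h hSZ hSh hdim
  · exact h S hSh hdim

end Pool.Agent.SP82
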