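import Mathlib
import Pool.Agent.SP82.E
import Pool.Agent.KS6_82.Crv.Ex

/-!
# The plane
-/

set_option autoImplicit false

namespace Pool.Agent.SP82

open Filter Topology Asymptotics MvPolynomial Pool.Agent.KS6_82.Crv Pool.Agent.KS6_82.Att

lemma plane_semi {T : Module.End ℂ (Fin 3 → ℂ)} {z e e' : Fin 3 → ℂ} {D lam μ : ℂ}
    (hT : T z = D • z) (hD : D ≠ 0) (hli : LinearIndependent ℂ ![z, e, e'])
    (he : ∃ c : ℂ, T e = lam • e + c • z) (he' : ∃ c : ℂ, T e' = μ • e' + c • z)
    (hμ : ‖μ‖ < 1) (hlam : 1 ≤ ‖lam‖) :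
    (∃ ξ : (Fin 3 → ℂ) →ₗ[ℂ] ℂ, Semi T z (fun _ : Fin 1 => μ) lam ξ e) ∧
      T.charpoly.rootMultiplicity 0 ≤ 1 := by
  classical
  obtain ⟨c, hc⟩ := he
  obtain ⟨c', hc'⟩ := he'
  set b := basisOfLinearIndependentOfCardEqFinrank hli (by simp) with hb
  have hb0 : b 0 = z := by simp [hb]
  have hb1 : b 1 = e := by simp [hb]
  have hb2 : b 2 = e' := by simp [hb]
  have hv : ∀ v, v = b.coord 0 v • z + b.coord 1 v • e + b.coord 2 v • e' := by
    intro v
    conv_lhs => rw [← b.sum_repr v]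
    rw [Fin.sum_univ_three, hb0, hb1, hb2]
    rfl
  have hlam0 : lam ≠ 0 := by
    rintro rfl
    rw [norm_zero] at hlam
    linarith
  constructor
  · refine ⟨(lam - μ) • b.coord 1, fun _ => hμ, hlam, ?_, ?_, ⟨c, hc⟩⟩
    · intro a ha
      have h1 : b.coord 1 e = b.coord 1 (a • z) := by rw [← ha]
      rw [← hb1, ← hb0, map_smul, Module.Basis.coord_apply, Module.Basis.coord_apply,
        Module.Basis.repr_self, Module.Basis.repr_self] at h1
      simp at h1
    · intro v
      refine ⟨b.coord 0 v * (D - μ) + b.coord 1 v * c + b.coord 2 v * c', ?_⟩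
      rw [Fin.prod_univ_one, map_sub, Polynomial.aeval_X, Polynomial.aeval_C, LinearMap.sub_apply,
        Module.algebraMap_end_apply, LinearMap.smul_apply, smul_eq_mul]
      have h1 : T v = b.coord 0 v • D • z + b.coord 1 v • (lam • e + c • z) +
          b.coord 2 v • (μ • e' + c' • z) := by
        conv_lhs => rw [hv v]
        rw [map_add, map_add, map_smul, map_smul, map_smul, hT, hc, hc']
      have h2 : μ • v = μ • (b.coord 0 v • z + b.coord 1 v • e + b.coord 2 v • e') := by
        rw [← hv v]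
      rw [h1, h2]
      module
  · have h1 : T.charpoly = (Polynomial.X - Polynomial.C D) * (Polynomial.X - Polynomial.C lam) *
        (Polynomial.X - Polynomial.C μ) := by
      rw [← LinearMap.charpoly_toMatrix T b]
      have hA : ∀ i j, LinearMap.toMatrix b b T i j =
          (!![D, c, c'; 0, lam, 0; 0, 0, μ] : Matrix (Fin 3) (Fin 3) ℂ) i j := by
        intro i j
        rw [LinearMap.toMatrix_apply]
        fin_cases j
        · simp only [Fin.zero_eta, Fin.isValue]
          rw [hb0, hT, ← hb0, map_smul, Module.Basis.repr_self]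
          fin_cases i <;> simp
        · simp only [Fin.mk_one, Fin.isValue]
          rw [hb1, hc, ← hb1, ← hb0, map_add, map_smul, map_smul, Module.Basis.repr_self,
            Module.Basis.repr_self]
          fin_cases i <;> simp
        · simp only [Fin.reduceFinMk, Fin.isValue]
          rw [hb2, hc', ← hb2, ← hb0, map_add, map_smul, map_smul, Module.Basis.repr_self,
            Module.Basis.repr_self]
          fin_cases i <;> simp
      have hA' : LinearMap.toMatrix b b T = !![D, c, c'; 0, lam, 0; 0, 0, μ] := by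
        ext i j
        exact hA i j
      rw [hA', Matrix.charpoly_of_upperTriangular]
      · rw [Fin.prod_univ_three]
        simp
      · intro i j hij
        have hij' : j < i := hij
        fin_cases i <;> fin_cases j <;> first | rfl | exact absurd hij' (by decide)
    rw [h1]
    have hn1 : (Polynomial.X - Polynomial.C D : Polynomial ℂ) ≠ 0 := Polynomial.X_sub_C_ne_zero D
    have hn2 : (Polynomial.X - Polynomial.C lam : Polynomial ℂ) ≠ 0 :=
      Polynomial.X_sub_C_ne_zero lam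
    have hn3 : (Polynomial.X - Polynomial.C μ : Polynomial ℂ) ≠ 0 := Polynomial.X_sub_C_ne_zero μ
    rw [Polynomial.rootMultiplicity_mul (mul_ne_zero (mul_ne_zero hn1 hn2) hn3),
      Polynomial.rootMultiplicity_mul (mul_ne_zero hn1 hn2), Polynomial.rootMultiplicity_X_sub_C,
      Polynomial.rootMultiplicity_X_sub_C, Polynomial.rootMultiplicity_X_sub_C,
      if_neg (Ne.symm hD), if_neg (Ne.symm hlam0)]
    split_ifs <;> omega

lemma compat_one (μ : ℂ) : Compat (fun _ : Fin 1 => μ) := by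
  intro a b hab h
  by_cases h0 : μ = 0 ∨ 1 ≤ ‖μ‖
  · obtain ⟨h1, h2⟩ := hab 0 h0
    refine ⟨1, le_rfl, ?_⟩
    rw [Fin.prod_univ_one, Fin.prod_univ_one, h1, h2]
  · push Not at h0
    rw [Fin.prod_univ_one, Fin.prod_univ_one, norm_pow, norm_pow] at h
    have h2 : a 0 = b 0 := (pow_right_injective₀ (norm_pos_iff.2 h0.1) h0.2.ne) h
    refine ⟨1, le_rfl, ?_⟩
    rw [Fin.prod_univ_one, Fin.prod_univ_one, h2]

/-- In the plane all closed sets are covered. -/
theorem plane {f : Fin 3 → MvPolynomial (Fin 3) ℂ} {d l : ℕ} (hd : 2 ≤ d) (hl : 1 ≤ l)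
    (hf : ∀ i, (f i).IsHomogeneous d) {z : Fin 3 → ℂ} (hz0 : z ≠ 0) (hz : (vl f)^[l] z = z)
    {e e' : Fin 3 → ℂ} {lam μ : ℂ} (hli : LinearIndependent ℂ ![z, e, e'])
    (he : ∃ c : ℂ, linT z (itp f l) e = lam • e + c • z)
    (he' : ∃ c : ℂ, linT z (itp f l) e' = μ • e' + c • z)
    (hμ : ‖μ‖ < 1) (hlam : 1 ≤ ‖lam‖) {α : Fin 3 → ℂ} {s : ℕ → ℂ}
    (hs : Tendsto (fun n => s n • (vl f)^[l * n] α) atTop (𝓝 z)) : DMLAt f α := by
  classical
  have hTz : (linT z (itp f l)) z = ((d ^ l : ℕ) : ℂ) • z :=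
    euler (itp_hom hf l) (by rw [vl_itp, hz])
  have hD0 : ((d ^ l : ℕ) : ℂ) ≠ 0 := by
    have : 0 < d ^ l := by positivity
    exact_mod_cast this.ne'
  obtain ⟨⟨ξ, hS⟩, hSZ⟩ := plane_semi hTz hD0 hli he he' hμ hlam
  intro S hSh
  by_cases h0 : ∀ g ∈ S, g = 0
  · refine ⟨{(1, 0)}, ?_⟩
    ext n
    simp only [Set.mem_ofPred_eq, Finset.mem_singleton, exists_eq_left, one_mul, add_zero,
      exists_eq', iff_true]
    intro g hg
    rw [h0 g hg, map_zero]
  · push Not at h0
    obtain ⟨g, hg, hg0⟩ := h0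
    refine main_semi hd hl hf hz0 hz hS (compat_one μ) hs (Or.inl hSZ) hSh ?_
    have h1 := ringKrullDim_succ_le_of_surjective (Ideal.Quotient.mk (Ideal.span S))
      Ideal.Quotient.mk_surjective (r := g) (mem_nonZeroDivisors_of_ne_zero hg0)
      (Ideal.Quotient.eq_zero_iff_mem.2 (Ideal.subset_span hg))
    have h2 : ringKrullDim (MvPolynomial (Fin 3) ℂ) = 3 := by
      rw [MvPolynomial.ringKrullDim_of_isNoetherianRing]
      simp
    rw [h2] at h1
    have h3 : ringKrullDim (MvPolynomial (Fin 3) ℂ ⧸ Ideal.span S) + 1 ≤ 2 + 1 := by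
      refine h1.trans (le_of_eq ?_)
      norm_num
    exact ENat.WithBot.add_le_add_one_right_iff.1 h3

/-- the linear part of the example -/
lemma fam_lin {N d : ℕ} (hd : 2 ≤ d) (lam : Fin N → ℂ)
    (Q : Fin (N + 1) → MvPolynomial (Fin (N + 1)) ℂ)
    (hQ1 : ∀ i j, eval e0 (pderiv j (Q i)) = 0) (j : Fin N) :
    linT e0 (itp (fam d lam Q) 1) (Pi.single j.succ 1) = lam j • Pi.single j.succ 1 := by
  have hit : itp (fam d lam Q) 1 = fam d lam Q := by
    funext i
    show bind₁ X (fam d lam Q i) = _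
    rw [bind₁_X_left]
    rfl
  rw [hit]
  funext i
  rw [linT_apply, Finset.sum_eq_single j.succ]
  · rw [fam_entry hd lam Q hQ1, Pi.single_eq_same, mul_one, Pi.smul_apply, smul_eq_mul,
      Pi.single_apply]
    by_cases h : j.succ = i
    · rw [if_pos h, if_pos h.symm, ← h, Fin.cons_succ, mul_one]
    · rw [if_neg h, if_neg (Ne.symm h), mul_zero]
  · intro k _ hk
    rw [Pi.single_apply, if_neg hk, mul_zero]
  · intro h
    exact absurd (Finset.mem_univ _) h

end Pool.Agent.SP82
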