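import Mathlib
import Pool.Agent.SP82.E

/-!
# Splitting into the stable, the neutral and the unstable part
-/

set_option autoImplicit false

namespace Pool.Agent.SP82

open Filter Topology Asymptotics MvPolynomial Pool.Agent.KS6_82.Crv Pool.Agent.KS6_82.Att

variable {M m : ℕ}

/-- the polynomial with the given roots -/
noncomputable def pr (l : List ℂ) : Polynomial ℂ := (l.map fun ν => Polynomial.X - Polynomial.C ν).prod

lemma pr_cons (a : ℂ) (l : List ℂ) : pr (a :: l) = (Polynomial.X - Polynomial.C a) * pr l := by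
  simp [pr]

lemma pr_eval (l : List ℂ) (a : ℂ) (h : a ∉ l) : (pr l).eval a ≠ 0 := by
  induction l with
  | nil => simp [pr]
  | cons b l ih =>
    rw [pr_cons, Polynomial.eval_mul, Polynomial.eval_sub, Polynomial.eval_X, Polynomial.eval_C]
    apply mul_ne_zero
    · rw [sub_ne_zero]
      rintro rfl
      exact h List.mem_cons_self
    · exact ih fun h' => h (List.mem_cons_of_mem _ h')

lemma coprime_lin {P : Polynomial ℂ} {a : ℂ} (h : P.eval a ≠ 0) :
    IsCoprime (Polynomial.X - Polynomial.C a) P := by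
  obtain ⟨R, hR⟩ := Polynomial.X_sub_C_dvd_sub_C_eval (a := a) (p := P)
  refine ⟨-(Polynomial.C (P.eval a)⁻¹ * R), Polynomial.C (P.eval a)⁻¹, ?_⟩
  have h1 : (Polynomial.C (P.eval a)⁻¹ * Polynomial.C (P.eval a) : Polynomial ℂ) = 1 := by
    rw [← Polynomial.C_mul, inv_mul_cancel₀ h, Polynomial.C_1]
  linear_combination Polynomial.C (P.eval a)⁻¹ * hR + h1

lemma coprime_pr (l l' : List ℂ) (h : ∀ a ∈ l, a ∉ l') : IsCoprime (pr l) (pr l') := by
  induction l with
  | nil => simp [pr, isCoprime_one_left]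
  | cons a l ih =>
    rw [pr_cons]
    exact (coprime_lin (pr_eval l' a (h a List.mem_cons_self))).mul_left
      (ih fun b hb => h b (List.mem_cons_of_mem _ hb))

lemma pr_filter (l : List ℂ) (p : ℂ → Bool) :
    pr (l.filter p) * pr (l.filter fun x => !p x) = pr l := by
  induction l with
  | nil => simp [pr]
  | cons a l ih =>
    by_cases h : p a
    · rw [List.filter_cons_of_pos h, List.filter_cons_of_neg (by simp [h]), pr_cons, pr_cons,
        ← ih]
      ring
    · rw [List.filter_cons_of_neg h, List.filter_cons_of_pos (by simp [h]), pr_cons, pr_cons,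
        ← ih]
      ring

/-- the data for the splitting -/
structure Spl (T : Module.End ℂ (Fin M → ℂ)) (l : List ℂ) (lam : ℂ)
    (ξ : (Fin M → ℂ) →ₗ[ℂ] ℂ) (e : Fin M → ℂ) : Prop where
  roots : ∀ ν ∈ l, ‖ν‖ ≠ 1
  unit : ‖lam‖ = 1
  eig : ∀ w, ξ (T w) = lam * ξ w
  img : ∀ w, Polynomial.aeval T (pr l) w = ξ w • e
  eige : T e = lam • e

/-- the norms of the powers of an operator on the image of a projection -/
lemma op_small {S P : Module.End ℂ (Fin M → ℂ)}
    (h : ∀ v i, Tendsto (fun n => (S ^ n) (P v) i) atTop (𝓝 0)) {ε : ℝ} (hε : 0 < ε) :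
    ∀ᶠ n in atTop, ∀ v, ‖(S ^ n) (P v)‖ ≤ ε * ‖v‖ := by
  classical
  have htend : ∀ j : Fin M, Tendsto (fun n => (S ^ n) (P (Pi.single j 1))) atTop (𝓝 0) := by
    intro j
    rw [tendsto_pi_nhds]
    intro i
    exact h _ i
  have hsum : Tendsto (fun n => ∑ j, ‖(S ^ n) (P (Pi.single j 1))‖) atTop (𝓝 0) := by
    have := tendsto_finsetSum Finset.univ fun j _ => (htend j).norm
    simpa using this
  filter_upwards [hsum.eventually_lt_const hε] with n hn v
  have h2 : v = ∑ j, v j • (Pi.single j 1 : Fin M → ℂ) := by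
    funext i
    rw [Finset.sum_apply]
    simp [Pi.single_apply]
  have h3 : (S ^ n) (P v) = ∑ j, v j • (S ^ n) (P (Pi.single j 1)) := by
    conv_lhs => rw [h2]
    rw [map_sum, map_sum]
    simp_rw [map_smul]
  rw [h3]
  calc ‖∑ j, v j • (S ^ n) (P (Pi.single j 1))‖ ≤ ∑ j, ‖v‖ * ‖(S ^ n) (P (Pi.single j 1))‖ := by
        refine norm_sum_le_of_le _ fun j _ => ?_
        rw [norm_smul]
        exact mul_le_mul_of_nonneg_right (norm_le_pi_norm v j) (norm_nonneg _)
    _ = (∑ j, ‖(S ^ n) (P (Pi.single j 1))‖) * ‖v‖ := by rw [← Finset.mul_sum, mul_comm]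
    _ ≤ ε * ‖v‖ := mul_le_mul_of_nonneg_right hn.le (norm_nonneg _)

lemma exists_rate_list (l : List ℂ) (h : ∀ ν ∈ l, ‖ν‖ < 1) :
    ∃ ρ : ℝ, 0 ≤ ρ ∧ ρ < 1 ∧ ∀ ν ∈ l, ‖ν‖ < ρ := by
  induction l with
  | nil => exact ⟨0, le_rfl, one_pos, by simp⟩
  | cons a l ih =>
    obtain ⟨τ, h1, h2, h3⟩ := ih fun ν hν => h ν (List.mem_cons_of_mem _ hν)
    obtain ⟨τ', h4, h5⟩ := exists_between (max_lt h2 (h a List.mem_cons_self))
    refine ⟨τ', h1.trans ((le_max_left _ _).trans h4.le), h5, fun i hi => ?_⟩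
    rcases List.mem_cons.1 hi with rfl | hi
    · exact (le_max_right _ _).trans_lt h4
    · exact (h3 i hi).trans ((le_max_left _ _).trans_lt h4)

lemma tendsto_of_killed {S : Module.End ℂ (Fin M → ℂ)} (l : List ℂ) (h : ∀ ν ∈ l, ‖ν‖ < 1)
    {v : Fin M → ℂ} (hv : Polynomial.aeval S (pr l) v = 0) (i : Fin M) :
    Tendsto (fun n => (S ^ n) v i) atTop (𝓝 0) := by
  obtain ⟨ρ, h0, h1, h2⟩ := exists_rate_list l h
  exact (bd_iter S l h2 v hv i).tendsto h0 h1

lemma aeval_mul_apply (T : Module.End ℂ (Fin M → ℂ)) (P Q : Polynomial ℂ) (v : Fin M → ℂ) :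
    Polynomial.aeval T (P * Q) v = Polynomial.aeval T P (Polynomial.aeval T Q v) := by
  rw [map_mul, Module.End.mul_apply]

lemma aeval_pow_comm (T : Module.End ℂ (Fin M → ℂ)) (P : Polynomial ℂ) (n : ℕ) (v : Fin M → ℂ) :
    Polynomial.aeval T P ((T ^ n) v) = (T ^ n) (Polynomial.aeval T P v) := by
  have h1 : Polynomial.aeval T (P * Polynomial.X ^ n) = Polynomial.aeval T (Polynomial.X ^ n * P) := by
    rw [mul_comm]
  rw [map_mul, map_mul, map_pow, Polynomial.aeval_X] at h1
  exact DFunLike.congr_fun h1 v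

/-- **The splitting.** -/
theorem Spl.split {T : Module.End ℂ (Fin M → ℂ)} {l : List ℂ} {lam : ℂ}
    {ξ : (Fin M → ℂ) →ₗ[ℂ] ℂ} {e : Fin M → ℂ} (h : Spl T l lam ξ e) {ε : ℝ} (hε : 0 < ε) :
    ∃ (e₀ : Fin M → ℂ) (Ps Pu : Module.End ℂ (Fin M → ℂ)) (p : ℕ), 1 ≤ p ∧
      (∀ w, w = ξ w • e₀ + Ps w + Pu w) ∧ (∀ n w, Ps ((T ^ n) w) = (T ^ n) (Ps w)) ∧
      (∀ n w, Pu ((T ^ n) w) = (T ^ n) (Pu w)) ∧
      (∀ w, ‖(T ^ p) (Ps w)‖ ≤ ε * ‖Ps w‖) ∧ (∀ w, ‖Pu w‖ ≤ ε * ‖(T ^ p) (Pu w)‖) := by
  classical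
  set ls := l.filter fun ν => decide (‖ν‖ < 1) with hls
  set lu := l.filter fun ν => !decide (‖ν‖ < 1) with hlu
  have hs1 : ∀ ν ∈ ls, ‖ν‖ < 1 := by
    intro ν hν
    have := (List.mem_filter.1 hν).2
    simpa using this
  have hu1 : ∀ ν ∈ lu, 1 < ‖ν‖ := by
    intro ν hν
    obtain ⟨h1, h2⟩ := List.mem_filter.1 hν
    have h3 : ¬ ‖ν‖ < 1 := by simpa using h2
    exact lt_of_le_of_ne (not_lt.1 h3) (Ne.symm (h.roots ν h1))
  set A := pr ls with hA
  set B := pr lu with hB
  have hAB : A * B = pr l := pr_filter l _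
  have hcop : IsCoprime A B := coprime_pr ls lu fun a ha hb => by
    have h1 := hs1 a ha
    have h2 := hu1 a hb
    linarith
  have hcop2 : IsCoprime (Polynomial.X - Polynomial.C lam) (pr l) :=
    coprime_lin (pr_eval l lam fun hm => h.roots lam hm h.unit)
  obtain ⟨a, b, hab⟩ := hcop
  obtain ⟨v, u, huv⟩ := hcop2
  set C := (Polynomial.X - Polynomial.C lam : Polynomial ℂ) with hC
  -- the product kills
  have hkill : ∀ w, Polynomial.aeval T (C * pr l) w = 0 := by
    intro w
    rw [aeval_mul_apply, h.img, map_smul, hC, map_sub, Polynomial.aeval_X, Polynomial.aeval_C,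
      LinearMap.sub_apply, Module.algebraMap_end_apply, h.eige, sub_self, smul_zero]
  set P0 := Polynomial.aeval T (u * pr l) with hP0
  set Ps := Polynomial.aeval T (v * b * C * B) with hPs
  set Pu := Polynomial.aeval T (v * a * C * A) with hPu
  have hsum : ∀ w, w = P0 w + Ps w + Pu w := by
    intro w
    have h1 : (u * pr l + v * b * C * B + v * a * C * A : Polynomial ℂ) = 1 := by
      linear_combination huv + v * C * hab
    have h2 := congrArg (fun P => Polynomial.aeval T P w) h1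
    simp only [map_add, map_one, LinearMap.add_apply, Module.End.one_apply] at h2
    exact h2.symm
  have hP0w : ∀ w, P0 w = ξ w • Polynomial.eval lam u • e := by
    intro w
    rw [hP0, aeval_mul_apply, h.img, map_smul, aeval_eigen h.eige]
  have hAs : ∀ w, Polynomial.aeval T A (Ps w) = 0 := by
    intro w
    rw [hPs, ← aeval_mul_apply]
    have h1 : A * (v * b * C * B) = v * b * (C * pr l) := by rw [← hAB]; ring
    rw [h1, aeval_mul_apply, hkill, map_zero]
  have hBu : ∀ w, Polynomial.aeval T B (Pu w) = 0 := by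
    intro w
    rw [hPu, ← aeval_mul_apply]
    have h1 : B * (v * a * C * A) = v * a * (C * pr l) := by rw [← hAB]; ring
    rw [h1, aeval_mul_apply, hkill, map_zero]
  have hPs2 : ∀ w, Polynomial.aeval T A w = 0 → Ps w = w := by
    intro w hw
    have h1 := hsum w
    have h2 : P0 w = 0 := by
      have e1 : u * pr l = u * B * A := by rw [← hAB]; ring
      rw [hP0, e1, aeval_mul_apply, hw, map_zero]
    have h3 : Pu w = 0 := by rw [hPu, aeval_mul_apply, hw, map_zero]
    rw [h2, h3, zero_add, add_zero] at h1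
    exact h1.symm
  have hPu2 : ∀ w, Polynomial.aeval T B w = 0 → Pu w = w := by
    intro w hw
    have h1 := hsum w
    have h2 : P0 w = 0 := by
      have e1 : u * pr l = u * A * B := by rw [← hAB]; ring
      rw [hP0, e1, aeval_mul_apply, hw, map_zero]
    have h3 : Ps w = 0 := by rw [hPs, aeval_mul_apply, hw, map_zero]
    rw [h2, h3, zero_add, zero_add] at h1
    exact h1.symm
  -- the stable part
  have hst := op_small (S := T) (P := Ps) (fun w i => tendsto_of_killed ls hs1 (hAs w) i) hε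
  -- the inverse on the unstable part
  have hB0 : B.eval 0 ≠ 0 := by
    refine pr_eval lu 0 fun h0 => ?_
    have := hu1 0 h0
    rw [norm_zero] at this
    linarith
  obtain ⟨t, t', htt⟩ := coprime_lin hB0
  rw [map_zero, sub_zero] at htt
  set S := Polynomial.aeval T t with hS
  have hSinv : ∀ w, Polynomial.aeval T B w = 0 → S (T w) = w := by
    intro w hw
    have h2 := congrArg (fun P => Polynomial.aeval T P w) htt
    simp only [map_add, map_one, LinearMap.add_apply, Module.End.one_apply] at h2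
    rw [aeval_mul_apply, aeval_mul_apply, Polynomial.aeval_X, hw, map_zero, add_zero] at h2
    exact h2
  have hSB : ∀ w, Polynomial.aeval T B w = 0 → Polynomial.aeval T B (S w) = 0 := by
    intro w hw
    rw [hS, ← aeval_mul_apply, mul_comm, aeval_mul_apply, hw, map_zero]
  -- the inverse roots
  have hkS : ∀ (k : List ℂ), (∀ ν ∈ k, ν ≠ 0) → ∀ w, Polynomial.aeval T B w = 0 →
      ∃ R : Polynomial ℂ, Polynomial.aeval S (pr (k.map fun ν => ν⁻¹)) w =
        Polynomial.aeval T (R * pr k) w := by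
    intro k
    induction k with
    | nil => exact fun _ w _ => ⟨1, by simp [pr]⟩
    | cons ν k ih =>
      intro hk w hw
      have hν : ν ≠ 0 := hk ν List.mem_cons_self
      have hw1 : Polynomial.aeval T B (S w - ν⁻¹ • w) = 0 := by
        rw [map_sub, map_smul, hw, hSB w hw, smul_zero, sub_zero]
      obtain ⟨R, hR⟩ := ih (fun x hx => hk x (List.mem_cons_of_mem _ hx)) _ hw1
      refine ⟨R * (-Polynomial.C ν⁻¹ * t), ?_⟩
      rw [List.map_cons, pr_cons, mul_comm (Polynomial.X - Polynomial.C ν⁻¹), aeval_mul_apply]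
      have e1 : Polynomial.aeval S (Polynomial.X - Polynomial.C ν⁻¹) w = S w - ν⁻¹ • w := by
        rw [map_sub, Polynomial.aeval_X, Polynomial.aeval_C, LinearMap.sub_apply,
          Module.algebraMap_end_apply]
      rw [e1, hR, pr_cons]
      have e2 : S w - ν⁻¹ • w = Polynomial.aeval T (-Polynomial.C ν⁻¹ * t *
          (Polynomial.X - Polynomial.C ν)) w := by
        rw [aeval_mul_apply, aeval_mul_apply, ← hS, map_sub, Polynomial.aeval_X,
          Polynomial.aeval_C, LinearMap.sub_apply, Module.algebraMap_end_apply, map_sub, map_smul,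
          hSinv w hw, map_neg, Polynomial.aeval_C, LinearMap.neg_apply,
          Module.algebraMap_end_apply, smul_sub, smul_smul, inv_mul_cancel₀ hν, one_smul]
        abel
      rw [e2, ← aeval_mul_apply]
      congr 2
      ring
  have hun := op_small (S := S) (P := Pu) (fun w i => by
    refine tendsto_of_killed (lu.map fun ν => ν⁻¹) ?_ ?_ i
    · intro ν hν
      obtain ⟨ν', hν', rfl⟩ := List.mem_map.1 hν
      rw [norm_inv]
      exact inv_lt_one_of_one_lt₀ (hu1 ν' hν')
    · obtain ⟨R, hR⟩ := hkS lu (fun ν hν h0 => by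
        have := hu1 ν hν
        rw [h0, norm_zero] at this
        linarith) (Pu w) (hBu w)
      rw [hR, aeval_mul_apply, hBu, map_zero]) hε
  obtain ⟨p, ⟨h1, h2⟩, hp⟩ := ((hst.and hun).and (eventually_ge_atTop 1)).exists
  refine ⟨Polynomial.eval lam u • e, Ps, Pu, p, hp, fun w => ?_, fun n w => ?_, fun n w => ?_,
    fun w => ?_, fun w => ?_⟩
  · rw [← hP0w]
    exact hsum w
  · exact aeval_pow_comm T _ n w
  · exact aeval_pow_comm T _ n w
  · have h3 := h1 (Ps w)
    rwa [hPs2 (Ps w) (hAs w)] at h3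
  · have h4 : ∀ n, (S ^ n) ((T ^ n) (Pu w)) = Pu w := by
      intro n
      induction n with
      | zero => rfl
      | succ n ih =>
        rw [pow_succ S, pow_succ' T, Module.End.mul_apply, Module.End.mul_apply]
        rw [hSinv ((T ^ n) (Pu w)) (by rw [aeval_pow_comm, hBu, map_zero]), ih]
    have h5 : Polynomial.aeval T B ((T ^ p) (Pu w)) = 0 := by rw [aeval_pow_comm, hBu, map_zero]
    have h6 := h2 ((T ^ p) (Pu w))
    rw [hPu2 _ h5, h4] at h6
    exact h6

end Pool.Agent.SP82
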