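import Mathlib
import Pool.Agent.SP82.G
import Pool.Agent.SP82.C

/-!
# Slow or exponential convergence to a cycle with at most one neutral multiplier
-/

set_option autoImplicit false

namespace Pool.Agent.SP82

open Filter Topology Asymptotics MvPolynomial Pool.Agent.KS6_82.Crv Pool.Agent.KS6_82.Att

/-- the invariant cones, for real sequences -/
lemma cone_real {x s y W : ℕ → ℝ} {K B : ℝ} (hK : 0 < K) (hx : ∀ n, 0 ≤ x n) (hs : ∀ n, 0 ≤ s n)
    (hy : ∀ n, 0 ≤ y n) (hW0 : ∀ n, 0 < W n) (hW : ∀ n, W n ≤ K * (x n + s n + y n))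
    (hyB : ∀ n, y n ≤ B) (h1 : ∀ᶠ n in atTop, s (n + 1) ≤ 1 / 8 * s n + 1 / (24 * K) * W n)
    (h2 : ∀ᶠ n in atTop, 8 * y n ≤ y (n + 1) + 1 / (24 * K) * W n)
    (h3 : ∀ᶠ n in atTop, |x (n + 1) - x n| ≤ 1 / (24 * K) * W n) :
    (∃ C : ℝ, ∀ᶠ n in atTop, W n ≤ C * (1 / 2) ^ n) ∨ (∀ᶠ n in atTop, W n ≤ 3 * K * x n) := by
  obtain ⟨N, hN⟩ := eventually_atTop.1 (h1.and (h2.and h3))
  have hsm : ∀ n, ∀ t, x n ≤ t → s n ≤ t → y n ≤ t → 1 / (24 * K) * W n ≤ t / 8 := by
    intro n t hx' hs' hy'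
    have h4 : W n ≤ K * (3 * t) := (hW n).trans (mul_le_mul_of_nonneg_left (by linarith) hK.le)
    have h5 := mul_le_mul_of_nonneg_left h4 (show 0 ≤ 1 / (24 * K) by positivity)
    have h6 : 1 / (24 * K) * (K * (3 * t)) = t / 8 := by
      field_simp
      ring
    linarith
  have hpos : ∀ n, 0 < x n ∨ 0 < s n ∨ 0 < y n := by
    intro n
    by_contra hcon
    push Not at hcon
    have h4 := hW n
    have h5 : x n + s n + y n ≤ 0 := by linarith [hcon.1, hcon.2.1, hcon.2.2]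
    have h6 := mul_nonpos_of_nonneg_of_nonpos hK.le h5
    linarith [hW0 n]
  -- the unstable cone is not entered
  have hU : ∀ n ≥ N, ¬ (x n ≤ y n ∧ s n ≤ y n) := by
    intro n hn hcon
    have hyn : 0 < y n := by
      rcases hpos n with h | h | h
      · exact h.trans_le hcon.1
      · exact h.trans_le hcon.2
      · exact h
    have key : ∀ k, (x (n + k) ≤ y (n + k) ∧ s (n + k) ≤ y (n + k)) ∧
        2 ^ k * y n ≤ y (n + k) := by
      intro k
      induction k with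
      | zero => exact ⟨hcon, by simp⟩
      | succ k ih =>
        obtain ⟨⟨h4, h5⟩, h6⟩ := ih
        obtain ⟨h7, h8, h9⟩ := hN (n + k) (by omega)
        have h10 := hsm (n + k) _ h4 h5 le_rfl
        have h11 := (abs_le.1 h9).2
        have e : n + (k + 1) = n + k + 1 := rfl
        rw [e]
        have hyk := hy (n + k)
        refine ⟨⟨by linarith, by linarith⟩, ?_⟩
        rw [pow_succ]
        linarith
    have h4 : Tendsto (fun k : ℕ => (2 : ℝ) ^ k * y n) atTop atTop :=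
      (tendsto_pow_atTop_atTop_of_one_lt (by norm_num)).atTop_mul_const hyn
    obtain ⟨k, hk⟩ := (h4.eventually_gt_atTop B).exists
    linarith [(key k).2, hyB (n + k)]
  by_cases hc : ∃ n ≥ N, s n ≤ x n
  · right
    obtain ⟨n1, hn1, hc⟩ := hc
    have key : ∀ n ≥ n1, s n ≤ x n := by
      intro n hn
      induction n, hn using Nat.le_induction with
      | base => exact hc
      | succ n hn ih =>
        obtain ⟨h7, h8, h9⟩ := hN n (by omega)
        have hyx : y n ≤ x n := by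
          by_contra hcon
          rw [not_le] at hcon
          exact hU n (by omega) ⟨hcon.le, ih.trans hcon.le⟩
        have h10 := hsm n _ le_rfl ih hyx
        have h11 := (abs_le.1 h9).1
        have := hx n
        linarith
    filter_upwards [eventually_ge_atTop n1] with n hn
    have ih := key n hn
    have hyx : y n ≤ x n := by
      by_contra hcon
      rw [not_le] at hcon
      exact hU n (by omega) ⟨hcon.le, ih.trans hcon.le⟩
    have h4 := (hW n).trans (mul_le_mul_of_nonneg_left (show x n + s n + y n ≤ 3 * x n by linarith)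
      hK.le)
    linarith
  · left
    push Not at hc
    have hys : ∀ n ≥ N, y n ≤ s n := by
      intro n hn
      by_contra hcon
      rw [not_le] at hcon
      exact hU n hn ⟨(hc n hn).le.trans hcon.le, hcon.le⟩
    have key : ∀ n ≥ N, s n ≤ s N * (2 ^ N * (1 / 2) ^ n) := by
      intro n hn
      induction n, hn using Nat.le_induction with
      | base =>
        rw [← mul_pow]
        norm_num
      | succ n hn ih =>
        obtain ⟨h7, h8, h9⟩ := hN n (by omega)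
        have h10 := hsm n _ (hc n hn).le le_rfl (hys n hn)
        rw [pow_succ (1 / 2 : ℝ) n]
        have := hs n
        nlinarith
    refine ⟨3 * K * (s N * 2 ^ N), ?_⟩
    filter_upwards [eventually_ge_atTop N] with n hn
    have h4 := (hW n).trans (mul_le_mul_of_nonneg_left (show x n + s n + y n ≤ 3 * s n by
      linarith [hc n hn, hys n hn]) hK.le)
    have h5 := mul_le_mul_of_nonneg_left (key n hn) (show 0 ≤ 3 * K by positivity)
    calc W n ≤ 3 * K * s n := by linarith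
      _ ≤ 3 * K * (s N * (2 ^ N * (1 / 2) ^ n)) := h5
      _ = 3 * K * (s N * 2 ^ N) * (1 / 2) ^ n := by ring

variable {M : ℕ} {z : Fin M → ℂ} {G : Fin M → MvPolynomial (Fin M) ℂ} {lam : ℂ}

/-- an exact orbit in the cone -/
theorem exact_orbit {D : ℕ} (hD : 2 ≤ D) (hG : ∀ i, (G i).IsHomogeneous D) (hz0 : z ≠ 0)
    (hz : vl G z = z) {X : ℕ → Fin M → ℂ} (hX : ∀ n, X (n + 1) = vl G (X n)) {s : ℕ → ℂ}
    (hs : Tendsto (fun n => s n • X n) atTop (𝓝 z)) :
    ∃ (n₀ : ℕ) (b : ℕ → ℂ), (∀ n, b n ≠ 0) ∧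
      (∀ n, b (n + 1) • X (n₀ + (n + 1)) = vl G (b n • X (n₀ + n))) ∧
      Tendsto (fun n => b n • X (n₀ + n)) atTop (𝓝 z) := by
  classical
  obtain ⟨i0, hzi0⟩ : ∃ i, z i ≠ 0 := by
    by_contra h
    push Not at h
    exact hz0 (funext h)
  set ℓ : (Fin M → ℂ) →ₗ[ℂ] ℂ := (z i0)⁻¹ • LinearMap.proj i0 with hℓ
  have hℓa : ∀ x, ℓ x = (z i0)⁻¹ * x i0 := fun x => rfl
  have hℓz : ℓ z = 1 := by rw [hℓa, inv_mul_cancel₀ hzi0]
  have hℓc : Continuous ℓ := LinearMap.continuous_of_finiteDimensional ℓ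
  set Y : ℕ → Fin M → ℂ := fun n => s n • X n with hY
  have hℓY : Tendsto (fun n => ℓ (Y n)) atTop (𝓝 1) := by
    have := (hℓc.tendsto z).comp hs
    rwa [hℓz] at this
  set v : ℕ → Fin M → ℂ := fun n => (ℓ (Y n))⁻¹ • Y n with hv
  have hvt : Tendsto v atTop (𝓝 z) := by
    have := (hℓY.inv₀ one_ne_zero).smul hs
    rwa [inv_one, one_smul] at this
  set c : ℕ → ℂ := fun n => ℓ (vl G (v n)) with hc
  have hvlc : Continuous (vl G) := by
    apply continuous_pi
    intro i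
    exact continuous_eval (G i)
  have hct : Tendsto c atTop (𝓝 1) := by
    have h1 := (hℓc.tendsto (vl G z)).comp ((hvlc.tendsto z).comp hvt)
    rw [hz, hℓz] at h1
    exact h1
  have hY0 : ∀ᶠ n in atTop, ℓ (Y n) ≠ 0 := hℓY.eventually_ne one_ne_zero
  set bb : ℕ → ℂ := fun n => (ℓ (Y n))⁻¹ * s n with hbb
  have hvb : ∀ n, v n = bb n • X n := fun n => by
    simp only [hv, hY, hbb]
    rw [smul_smul]
  have hbb0 : ∀ᶠ n in atTop, bb n ≠ 0 := by
    filter_upwards [hY0] with n hn h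
    rcases mul_eq_zero.1 h with h1 | h1
    · exact hn (inv_eq_zero.1 h1)
    · apply hn
      simp only [hY]
      rw [h1, zero_smul, map_zero]
  have hℓv : ∀ᶠ n in atTop, ℓ (v n) = 1 := by
    filter_upwards [hY0] with n hn
    simp only [hv]
    rw [map_smul, smul_eq_mul, inv_mul_cancel₀ hn]
  have hstep : ∀ᶠ n in atTop, vl G (v n) = c n • v (n + 1) := by
    filter_upwards [(tendsto_add_atTop_nat 1).eventually hbb0,
      (tendsto_add_atTop_nat 1).eventually hℓv] with n hn1 hn2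
    have h1 : vl G (v n) = (bb n ^ D / bb (n + 1)) • v (n + 1) := by
      rw [hvb, hvb, vl_smul hG, ← hX, smul_smul, div_mul_cancel₀ _ hn1]
    have h2 : c n = bb n ^ D / bb (n + 1) := by
      simp only [hc]
      rw [h1, map_smul, hn2, smul_eq_mul, mul_one]
    rw [h1, h2]
  have hc1 : Tendsto (fun n => ‖c n - 1‖) atTop (𝓝 0) := by
    have := (hct.sub_const 1).norm
    simpa using this
  have hc2 : ∀ᶠ n in atTop, ‖c n - 1‖ ≤ 1 / 2 :=
    (hc1.eventually_lt_const (show (0 : ℝ) < 1 / 2 by norm_num)).mono fun n hn => hn.le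
  obtain ⟨n₀, hn₀⟩ := eventually_atTop.1 (hc2.and (hstep.and hbb0))
  obtain ⟨S, hS1, hS2⟩ := exists_S D hD (fun n => c (n₀ + n)) (fun n => (hn₀ _ (by omega)).1)
  have hDn : (0 : ℝ) < D := by positivity
  have hD2 : (2 : ℝ) ≤ D := by exact_mod_cast hD
  have hsh : Tendsto (fun n : ℕ => n₀ + n) atTop atTop := by
    simpa [add_comm] using tendsto_add_atTop_nat n₀
  have hSt : Tendsto S atTop (𝓝 0) := by
    rw [tendsto_zero_iff_norm_tendsto_zero]
    rw [Metric.tendsto_atTop]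
    intro ε hε
    have h1 : ∀ᶠ n in atTop, ‖c (n₀ + n) - 1‖ ≤ ε / 4 :=
      ((hc1.comp hsh).eventually_lt_const (show (0 : ℝ) < ε / 4 by positivity)).mono
        fun n hn => le_of_lt hn
    obtain ⟨N, hN⟩ := eventually_atTop.1 h1
    have hst : ∀ n ≥ N, ‖S n‖ ≤ 1 / 2 * ‖S (n + 1)‖ + 3 / 16 * ε := by
      intro n hn
      have h1 : ‖Complex.log (c (n₀ + n))‖ ≤ 3 / 2 * ‖c (n₀ + n) - 1‖ := by
        have := Complex.norm_log_one_add_half_le_self (hn₀ (n₀ + n) (by omega)).1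
        simpa using this
      have h2 : (D : ℝ) * ‖S n‖ ≤ ‖Complex.log (c (n₀ + n))‖ + ‖S (n + 1)‖ := by
        have h3 := congrArg norm (hS2 n)
        rw [norm_mul, Complex.norm_natCast] at h3
        rw [h3]
        exact norm_add_le _ _
      have h4 : 2 * ‖S n‖ ≤ D * ‖S n‖ := mul_le_mul_of_nonneg_right hD2 (norm_nonneg _)
      have h5 := hN n hn
      linarith
    have hk : ∀ k : ℕ, ∀ n ≥ N, ‖S n‖ ≤ (1 / 2) ^ k + 3 / 8 * ε := by
      intro k
      induction k with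
      | zero =>
        intro n _
        have := hS1 n
        rw [pow_zero]
        linarith
      | succ k ih =>
        intro n hn
        have h5 := ih (n + 1) (by omega)
        have h6 := hst n hn
        rw [pow_succ]
        linarith
    refine ⟨N, fun n hn => ?_⟩
    obtain ⟨k, hk1⟩ := exists_pow_lt_of_lt_one (show (0 : ℝ) < ε / 4 by positivity)
      (show (1 / 2 : ℝ) < 1 by norm_num)
    have h7 := hk k n hn
    rw [Real.dist_eq, sub_zero, abs_of_nonneg (norm_nonneg _)]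
    linarith
  set σ : ℕ → ℂ := fun n => Complex.exp (-S n) with hσ
  have hκ0 : ∀ n, c (n₀ + n) ≠ 0 := by
    intro n h
    have := (hn₀ (n₀ + n) (by omega)).1
    rw [h, zero_sub, norm_neg, norm_one] at this
    norm_num at this
  have hσr : ∀ n, σ (n + 1) = c (n₀ + n) * σ n ^ D := by
    intro n
    simp only [hσ]
    rw [← Complex.exp_nat_mul]
    have h1 : (D : ℂ) * -S n = -Complex.log (c (n₀ + n)) + -S (n + 1) := by
      have := hS2 n
      linear_combination -this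
    rw [h1, Complex.exp_add, Complex.exp_neg (Complex.log (c (n₀ + n))),
      Complex.exp_log (hκ0 n), ← mul_assoc, mul_inv_cancel₀ (hκ0 n), one_mul]
  have hσt : Tendsto σ atTop (𝓝 1) := by
    have h1 := (Complex.continuous_exp.tendsto (-0)).comp hSt.neg
    rw [neg_zero, Complex.exp_zero] at h1
    exact h1
  refine ⟨n₀, fun n => σ n * bb (n₀ + n), fun n => mul_ne_zero (Complex.exp_ne_zero _)
      (hn₀ (n₀ + n) (by omega)).2.2, fun n => ?_, ?_⟩
  · have e1 : (σ (n + 1) * bb (n₀ + (n + 1))) • X (n₀ + (n + 1)) =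
        (c (n₀ + n) * σ n ^ D) • v (n₀ + n + 1) := by
      rw [mul_smul, ← hvb, hσr]
      rfl
    have e2 : vl G ((σ n * bb (n₀ + n)) • X (n₀ + n)) = (c (n₀ + n) * σ n ^ D) • v (n₀ + n + 1) := by
      rw [mul_smul, ← hvb, vl_smul hG, (hn₀ (n₀ + n) (by omega)).2.1, smul_smul, mul_comm]
    simp only
    rw [e1, e2]
  · have h1 := hσt.smul (hvt.comp hsh)
    rw [one_smul] at h1
    refine h1.congr fun n => ?_
    simp only [Function.comp_apply]
    rw [hvb, smul_smul]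

/-- **Dichotomy.** -/
theorem slow_or_fast2 {D : ℕ} (hD : 2 ≤ D) (hG : ∀ i, (G i).IsHomogeneous D) (hz0 : z ≠ 0)
    (hz : vl G z = z) {X : ℕ → Fin M → ℂ} (hX : ∀ n, X (n + 1) = vl G (X n)) {s : ℕ → ℂ}
    (hs : Tendsto (fun n => s n • X n) atTop (𝓝 z)) {ξ : (Fin M → ℂ) →ₗ[ℂ] ℂ}
    (hlam : ‖lam‖ = 1) (heig : ∀ w, ξ (linT z G w) = lam * ξ w) {e₀ : Fin M → ℂ}
    {Ps Pu : Module.End ℂ (Fin M → ℂ)} (hsum : ∀ w, w = ξ w • e₀ + Ps w + Pu w)
    (hPs : ∀ w, Ps (linT z G w) = linT z G (Ps w)) (hPu : ∀ w, Pu (linT z G w) = linT z G (Pu w))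
    (h1 : ∀ w, ‖linT z G (Ps w)‖ ≤ 1 / 8 * ‖Ps w‖)
    (h2 : ∀ w, ‖Pu w‖ ≤ 1 / 8 * ‖linT z G (Pu w)‖) :
    (∃ (s' : ℕ → ℂ) (C : ℝ), ∀ n, ‖s' n • X n - z‖ ≤ C * (1 / 2) ^ n) ∨
      (∃ (n₀ : ℕ) (b : ℕ → ℂ), (∀ n, b n ≠ 0) ∧
        Slow (fun n => b n • X (n₀ + n)) z G ξ lam) := by
  classical
  obtain ⟨n₀, b, hb0, hbr, hbt⟩ := exact_orbit hD hG hz0 hz hX hs
  set Z : ℕ → Fin M → ℂ := fun n => b n • X (n₀ + n) with hZ
  have hZr : ∀ n, Z (n + 1) = vl G (Z n) := hbr
  set T := linT z G with hT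
  -- exponential convergence of the tail
  have hexp : (∃ C : ℝ, ∀ᶠ n in atTop, ‖Z n - z‖ ≤ C * (1 / 2) ^ n) →
      ∃ (s' : ℕ → ℂ) (C : ℝ), ∀ n, ‖s' n • X n - z‖ ≤ C * (1 / 2) ^ n := by
    rintro ⟨C, hC⟩
    obtain ⟨N, hN⟩ := eventually_atTop.1 hC
    refine ⟨fun n => if n < n₀ + N then 0 else b (n - n₀), ‖z‖ * 2 ^ (n₀ + N) + |C| * 2 ^ n₀,
      fun n => ?_⟩
    have h21 : ∀ n : ℕ, (2 : ℝ) ^ n * (1 / 2) ^ n = 1 := fun n => by
      rw [← mul_pow]
      norm_num
    have hp : ∀ n : ℕ, (0 : ℝ) < (1 / 2) ^ n := fun n => by positivity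
    by_cases hn : n < n₀ + N
    · simp only [if_pos hn, zero_smul, zero_sub, norm_neg]
      have h1 : (1 / 2 : ℝ) ^ (n₀ + N) ≤ (1 / 2) ^ n :=
        pow_le_pow_of_le_one (by norm_num) (by norm_num) hn.le
      have h3 : ‖z‖ ≤ ‖z‖ * (2 ^ (n₀ + N) * (1 / 2) ^ n) := by
        have h4 : (1 : ℝ) ≤ 2 ^ (n₀ + N) * (1 / 2) ^ n := by
          calc (1 : ℝ) = 2 ^ (n₀ + N) * (1 / 2) ^ (n₀ + N) := (h21 _).symm
            _ ≤ _ := mul_le_mul_of_nonneg_left h1 (by positivity)
        exact le_mul_of_one_le_right (norm_nonneg _) h4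
      have h5 : 0 ≤ |C| * 2 ^ n₀ * (1 / 2) ^ n := by positivity
      linarith
    · rw [not_lt] at hn
      simp only [if_neg (not_lt.2 hn)]
      have h3 := hN (n - n₀) (by omega)
      have h4 : Z (n - n₀) = b (n - n₀) • X n := by
        simp only [hZ]
        rw [Nat.add_sub_cancel' (by omega)]
      rw [h4] at h3
      have h5 : (1 / 2 : ℝ) ^ (n - n₀) = 2 ^ n₀ * (1 / 2) ^ n := by
        have h6 : (1 / 2 : ℝ) ^ n = (1 / 2) ^ n₀ * (1 / 2) ^ (n - n₀) := by
          rw [← pow_add, Nat.add_sub_cancel' (by omega)]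
        rw [h6, ← mul_assoc, h21, one_mul]
      rw [h5] at h3
      have h7 : C * (2 ^ n₀ * (1 / 2) ^ n) ≤ |C| * (2 ^ n₀ * (1 / 2) ^ n) :=
        mul_le_mul_of_nonneg_right (le_abs_self C) (by positivity)
      have h8 : 0 ≤ ‖z‖ * 2 ^ (n₀ + N) * (1 / 2) ^ n := by positivity
      linarith
  by_cases hne : ∀ n, Z n ≠ z
  swap
  · left
    push Not at hne
    obtain ⟨n1, hn1⟩ := hne
    apply hexp
    refine ⟨0, eventually_atTop.2 ⟨n1, fun n hn => ?_⟩⟩
    have h3 : Z n = z := by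
      induction n, hn using Nat.le_induction with
      | base => exact hn1
      | succ n _ ih => rw [hZr, ih, hz]
    rw [h3, sub_self, norm_zero, zero_mul]
  set w : ℕ → Fin M → ℂ := fun n => Z n - z with hw
  have hwt : Tendsto w atTop (𝓝 0) := tendsto_sub_nhds_zero_iff.2 hbt
  have hwn : Tendsto (fun n => ‖w n‖) atTop (𝓝 0) := by simpa using hwt.norm
  set E : ℕ → Fin M → ℂ := fun n => w (n + 1) - T (w n) with hE
  have hEO : E =O[atTop] (fun n => ‖w n‖ ^ 2) := by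
    rw [isBigO_pi]
    intro i
    have h3 := o_sq hbt (b := fun n => ‖w n‖) (isBigO_norm_right.2 (isBigO_refl _ _)) _
      (taylor z (G i))
    refine h3.congr_left fun n => ?_
    have hz' : eval z (G i) = z i := congrFun hz i
    have e1 : Z (n + 1) i = eval (Z n) (G i) := by rw [hZr]; rfl
    simp only [hE, hw, hT, Pi.sub_apply, linT_apply, e1, map_sub, hz', eval_C, map_sum, map_mul,
      eval_X, mul_sub, Finset.sum_sub_distrib]
  have hstep : ∀ n, w (n + 1) = T (w n) + E n := fun n => by simp only [hE]; abel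
  obtain ⟨C, hC0, hC⟩ := hEO.exists_pos
  rw [isBigOWith_iff] at hC
  have hbound : ∀ L : Module.End ℂ (Fin M → ℂ), ∃ c : ℝ, 0 ≤ c ∧ ∀ v, ‖L v‖ ≤ c * ‖v‖ := fun L =>
    ⟨‖LinearMap.toContinuousLinearMap L‖, norm_nonneg _, fun v =>
      (LinearMap.toContinuousLinearMap L).le_opNorm v⟩
  obtain ⟨c1, hc1, hPsb⟩ := hbound Ps
  obtain ⟨c2, hc2, hPub⟩ := hbound Pu
  obtain ⟨c3, hc3, hξb⟩ : ∃ c : ℝ, 0 ≤ c ∧ ∀ v, ‖ξ v‖ ≤ c * ‖v‖ :=
    ⟨‖LinearMap.toContinuousLinearMap ξ‖, norm_nonneg _, fun v =>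
      (LinearMap.toContinuousLinearMap ξ).le_opNorm v⟩
  set K := ‖e₀‖ + 1 with hK
  have hK0 : 0 < K := by positivity
  -- small errors
  have hsmall : ∀ c : ℝ, 0 ≤ c → ∀ᶠ n in atTop, c * ‖E n‖ ≤ 1 / (24 * K) * ‖w n‖ := by
    intro c hc
    have h3 : Tendsto (fun n => c * C * ‖w n‖) atTop (𝓝 0) := by
      have := hwn.const_mul (c * C)
      rwa [mul_zero] at this
    filter_upwards [h3.eventually_lt_const (show 0 < 1 / (24 * K) by positivity), hC]
      with n h4 h5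
    rw [Real.norm_of_nonneg (by positivity)] at h5
    calc c * ‖E n‖ ≤ c * (C * ‖w n‖ ^ 2) := mul_le_mul_of_nonneg_left h5 hc
      _ = c * C * ‖w n‖ * ‖w n‖ := by ring
      _ ≤ 1 / (24 * K) * ‖w n‖ := mul_le_mul_of_nonneg_right h4.le (norm_nonneg _)
  obtain ⟨B, hB⟩ : ∃ B : ℝ, ∀ n, ‖w n‖ ≤ B := by
    obtain ⟨B, hB⟩ := hwt.norm.bddAbove_range
    exact ⟨B, fun n => hB ⟨n, rfl⟩⟩
  have hmain := cone_real (x := fun n => ‖ξ (w n)‖) (s := fun n => ‖Ps (w n)‖)
    (y := fun n => ‖Pu (w n)‖) (W := fun n => ‖w n‖) (K := K) (B := c2 * B) hK0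
    (fun n => norm_nonneg _) (fun n => norm_nonneg _) (fun n => norm_nonneg _)
    (fun n => norm_pos_iff.2 (sub_ne_zero.2 (hne n)))
    (fun n => by
      have h3 : ‖w n‖ ≤ ‖ξ (w n) • e₀‖ + ‖Ps (w n)‖ + ‖Pu (w n)‖ := by
        conv_lhs => rw [hsum (w n)]
        exact norm_add₃_le
      rw [norm_smul] at h3
      have h4 := norm_nonneg (ξ (w n))
      have h5 := norm_nonneg (Ps (w n))
      have h6 := norm_nonneg (Pu (w n))
      have h7 := norm_nonneg e₀
      rw [hK]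
      nlinarith)
    (fun n => (hPub _).trans (mul_le_mul_of_nonneg_left (hB n) hc2))
    (by
      filter_upwards [hsmall c1 hc1] with n hn
      rw [hstep, map_add, hPs]
      refine (norm_add_le _ _).trans ?_
      exact add_le_add (h1 _) ((hPsb _).trans hn))
    (by
      filter_upwards [hsmall c2 hc2] with n hn
      have h3 : ‖T (Pu (w n))‖ ≤ ‖Pu (w (n + 1))‖ + ‖Pu (E n)‖ := by
        have h4 : T (Pu (w n)) = Pu (w (n + 1)) - Pu (E n) := by
          rw [hstep, map_add, hPu]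
          abel
        rw [h4]
        exact norm_sub_le _ _
      have h5 := h2 (w n)
      have h6 := (hPub (E n)).trans hn
      linarith)
    (by
      filter_upwards [hsmall c3 hc3] with n hn
      have h3 : ξ (w (n + 1)) = lam * ξ (w n) + ξ (E n) := by rw [hstep, map_add, heig]
      have h4 : ‖ξ (w n)‖ = ‖lam * ξ (w n)‖ := by rw [norm_mul, hlam, one_mul]
      rw [h4]
      refine (abs_norm_sub_norm_le _ _).trans ?_
      rw [h3, add_sub_cancel_left]
      exact (hξb _).trans hn)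
  rcases hmain with h3 | h3
  · exact Or.inl (hexp h3)
  · right
    refine ⟨n₀, b, hb0, fun i => congrFun hz i, hZr, hbt, hlam, heig, ?_, ?_⟩
    · refine IsBigO.of_bound (3 * K) ?_
      filter_upwards [h3] with n hn
      rw [norm_norm]
      exact hn
    · filter_upwards [h3] with n hn h0
      have h4 : ‖ξ (w n)‖ = 0 := by
        rw [norm_eq_zero]
        exact h0
      have h5 : ‖w n‖ ≤ 3 * K * ‖ξ (w n)‖ := hn
      rw [h4, mul_zero] at h5
      exact hne n (sub_eq_zero.1 (norm_le_zero_iff.1 h5))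

end Pool.Agent.SP82
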