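import Mathlib
import Pool.Agent.SP82.H
import Pool.Agent.SP82.F

/-!
# Cycles with at most one neutral multiplier
-/

set_option autoImplicit false

namespace Pool.Agent.SP82

open Filter Topology Asymptotics MvPolynomial Pool.Agent.KS6_82.Crv Pool.Agent.KS6_82.Att

variable {M m : ℕ}

/-- The product of the `T - μ_i` is of rank at most one modulo `z`, and `T` acts by the number `lam` of
absolute value one on its image; the `μ_i` are not of absolute value one. -/
structure Neut (T : Module.End ℂ (Fin M → ℂ)) (z : Fin M → ℂ) (μ : Fin m → ℂ) (lam : ℂ)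
    (ξ : (Fin M → ℂ) →ₗ[ℂ] ℂ) (e : Fin M → ℂ) : Prop where
  roots : ∀ i, ‖μ i‖ ≠ 1
  unit : ‖lam‖ = 1
  img : ∀ v, ∃ c : ℂ, Polynomial.aeval T (∏ i, (Polynomial.X - Polynomial.C (μ i))) v =
    ξ v • e + c • z
  eig : ∃ c : ℂ, T e = lam • e + c • z

variable {T : Module.End ℂ (Fin M → ℂ)} {z e : Fin M → ℂ} {μ : Fin m → ℂ} {lam D : ℂ}
  {ξ : (Fin M → ℂ) →ₗ[ℂ] ℂ}

lemma pr_ofFn (D : ℂ) (μ : Fin m → ℂ) : pr (D :: List.ofFn μ) =
    (Polynomial.X - Polynomial.C D) * ∏ i, (Polynomial.X - Polynomial.C (μ i)) := by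
  rw [pr_cons, pr, List.map_ofFn, List.prod_ofFn]
  rfl

lemma Neut.spl (h : Neut T z μ lam ξ e) (hT : T z = D • z) (hD : 1 < ‖D‖) :
    ∃ ξ' e', Spl T (D :: List.ofFn μ) lam ξ' e' := by
  have hroots : ∀ ν ∈ (D :: List.ofFn μ), ‖ν‖ ≠ 1 := by
    intro ν hν
    rcases List.mem_cons.1 hν with rfl | hν
    · exact hD.ne'
    · obtain ⟨i, rfl⟩ := (List.mem_ofFn' _ _).1 hν
      exact h.roots i
  obtain ⟨c₀, hc₀⟩ := h.eig
  have himg : ∀ w, Polynomial.aeval T (pr (D :: List.ofFn μ)) w = ξ w • (T e - D • e) := by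
    intro w
    obtain ⟨c, hc⟩ := h.img w
    rw [pr_ofFn, aeval_mul_apply, hc, map_sub, Polynomial.aeval_X, Polynomial.aeval_C,
      LinearMap.sub_apply, Module.algebraMap_end_apply, map_add, map_smul, map_smul, hT]
    module
  by_cases hez : ∃ c : ℂ, e = c • z
  · obtain ⟨c, hc⟩ := hez
    refine ⟨0, 0, hroots, h.unit, fun w => by simp, fun w => ?_, by simp⟩
    rw [himg, hc, map_smul, hT]
    simp only [LinearMap.zero_apply, zero_smul]
    module
  · push Not at hez
    have hcoef : ∀ a b : ℂ, a • e = b • z → a = 0 := by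
      intro a b hab
      by_contra ha
      apply hez (a⁻¹ * b)
      rw [mul_smul, ← hab, smul_smul, inv_mul_cancel₀ ha, one_smul]
    refine ⟨ξ, T e - D • e, hroots, h.unit, fun w => ?_, himg, ?_⟩
    · obtain ⟨c, hc⟩ := h.img w
      obtain ⟨c', hc'⟩ := h.img (T w)
      rw [aeval_comm, hc, map_add, map_smul, map_smul, hc₀, hT] at hc'
      have h1 : (ξ (T w) - lam * ξ w) • e = (ξ w * c₀ + c * D - c') • z := by
        have h2 : ξ w • (lam • e + c₀ • z) + c • D • z - ξ (T w) • e - c' • z = 0 := by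
          rw [hc']
          abel
        have h3 : (ξ (T w) - lam * ξ w) • e - (ξ w * c₀ + c * D - c') • z =
            -(ξ w • (lam • e + c₀ • z) + c • D • z - ξ (T w) • e - c' • z) := by
          module
        rw [h2, neg_zero] at h3
        exact sub_eq_zero.1 h3
      exact sub_eq_zero.1 (hcoef _ _ h1)
    · rw [map_sub, map_smul, hc₀, map_add, map_smul, map_smul, hc₀, hT]
      module

lemma Neut.kills (h : Neut T z μ lam ξ e) (hT : T z = D • z) :
    Kills T z (Fin.cons lam μ : Fin (m + 1) → ℂ) := by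
  intro v
  obtain ⟨c, hc⟩ := h.img v
  obtain ⟨c', hc'⟩ := h.eig
  refine ⟨ξ v * c' + c * (D - lam), ?_⟩
  rw [Fin.prod_univ_succ]
  simp only [Fin.cons_zero, Fin.cons_succ]
  rw [map_mul, Module.End.mul_apply, hc, map_sub, Polynomial.aeval_X, Polynomial.aeval_C,
    LinearMap.sub_apply, Module.algebraMap_end_apply, map_add, map_smul, map_smul, hc', hT]
  module

lemma Spl.pow {l : List ℂ} (h : Spl T l lam ξ e) {p : ℕ} (hp : 1 ≤ p) :
    ∃ e', Spl (T ^ p) (l.map fun ν => ν ^ p) (lam ^ p) ξ e' := by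
  have hdvd : ∀ a : ℂ, (Polynomial.X - Polynomial.C a : Polynomial ℂ) ∣
      Polynomial.X ^ p - Polynomial.C (a ^ p) := by
    intro a
    rw [map_pow]
    exact sub_dvd_pow_sub_pow _ _ p
  have h1 : ∀ l : List ℂ, pr l ∣ (pr (l.map fun ν => ν ^ p)).comp (Polynomial.X ^ p) := by
    intro l
    induction l with
    | nil => simp [pr]
    | cons a l ih =>
      rw [List.map_cons, pr_cons, pr_cons, Polynomial.mul_comp]
      refine mul_dvd_mul ?_ ih
      rw [Polynomial.sub_comp, Polynomial.X_comp, Polynomial.C_comp]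
      exact hdvd a
  obtain ⟨R, hR⟩ := h1 l
  have hpow : ∀ n w, ξ ((T ^ n) w) = lam ^ n * ξ w := by
    intro n w
    induction n with
    | zero => simp
    | succ n ih => rw [pow_succ', Module.End.mul_apply, h.eig, ih, pow_succ']; ring
  refine ⟨R.eval lam • e, ?_, ?_, hpow p, fun w => ?_, ?_⟩
  · intro ν hν
    obtain ⟨ν', hν', rfl⟩ := List.mem_map.1 hν
    rw [norm_pow]
    intro h2
    exact h.roots ν' hν' ((pow_eq_one_iff_of_nonneg (norm_nonneg _) (by omega)).1 h2)
  · rw [norm_pow, h.unit, one_pow]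
  · have h2 : Polynomial.aeval (T ^ p) (pr (l.map fun ν => ν ^ p)) =
        Polynomial.aeval T ((pr (l.map fun ν => ν ^ p)).comp (Polynomial.X ^ p)) := by
      have h4 : Polynomial.aeval T (Polynomial.X ^ p : Polynomial ℂ) = T ^ p := by
        rw [map_pow, Polynomial.aeval_X]
      rw [Polynomial.aeval_comp, h4]
    rw [h2, hR, mul_comm, aeval_mul_apply, h.img, map_smul, aeval_eigen h.eige]
  · have h3 : (T ^ p) e = lam ^ p • e := by
      have := aeval_eigen h.eige (Polynomial.X ^ p)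
      simpa using this
    rw [map_smul, h3, smul_comm]

/-- **Slow convergence or exponential convergence.** -/
theorem main_slow2 {f : Fin M → MvPolynomial (Fin M) ℂ} {d l : ℕ} (hd : 2 ≤ d) (hl : 1 ≤ l)
    (hf : ∀ i, (f i).IsHomogeneous d) {z : Fin M → ℂ} (hz0 : z ≠ 0) (hz : (vl f)^[l] z = z)
    {μ : Fin m → ℂ} {lam : ℂ} {ξ : (Fin M → ℂ) →ₗ[ℂ] ℂ} {e : Fin M → ℂ}
    (hS : Neut (linT z (itp f l)) z μ lam ξ e) {α : Fin M → ℂ} {s : ℕ → ℂ}
    (hs : Tendsto (fun n => s n • (vl f)^[l * n] α) atTop (𝓝 z)) :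
    (∃ (s' : ℕ → ℂ) (C r : ℝ), r < 1 ∧ ∀ n, ‖s' n • (vl f)^[l * n] α - z‖ ≤ C * r ^ n) ∨
    ∀ S : Set (MvPolynomial (Fin M) ℂ), (∀ g ∈ S, ∃ e : ℕ, g.IsHomogeneous e) →
      ringKrullDim (MvPolynomial (Fin M) ℂ ⧸ Ideal.span S) ≤ 2 →
      FiniteUnionAP {n : ℕ | ∀ g ∈ S, eval ((vl f)^[n] α) g = 0} := by
  classical
  set T := linT z (itp f l) with hT
  have hTz : T z = ((d ^ l : ℕ) : ℂ) • z := euler (itp_hom hf l) (by rw [vl_itp, hz])
  have hdl : 2 ≤ d ^ l := hd.trans (Nat.le_self_pow (by omega) d)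
  have hD1 : (1 : ℝ) < ‖((d ^ l : ℕ) : ℂ)‖ := by
    rw [Complex.norm_natCast]
    exact_mod_cast (by omega : 1 < d ^ l)
  obtain ⟨ξ', e₁, hspl⟩ := hS.spl hTz hD1
  obtain ⟨e₀, Ps, Pu, p, hp1, hsum, hPs, hPu, hb1, hb2⟩ := hspl.split (ε := 1 / 8) (by norm_num)
  obtain ⟨e', hsplp⟩ := hspl.pow hp1
  set L := l * p with hL
  have hL1 : 1 ≤ L := Nat.mul_pos hl hp1
  set G := itp f L with hG
  set D := d ^ L with hD
  have hD2 : 2 ≤ D := hd.trans (Nat.le_self_pow (by omega) d)
  have hGhom : ∀ i, (G i).IsHomogeneous D := itp_hom hf L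
  have hzL : (vl f)^[L] z = z := by
    rw [hL, Function.iterate_mul]
    exact Function.iterate_fixed hz p
  have hzG : vl G z = z := by rw [hG, vl_itp, hzL]
  have hTG : linT z G = T ^ p := linT_iterate f l p z hz
  set X' : ℕ → Fin M → ℂ := fun n => (vl f)^[L * n] α with hX'
  have hX : ∀ n, X' (n + 1) = vl G (X' n) := by
    intro n
    rw [hG, vl_itp, hX']
    simp only
    rw [← Function.iterate_add_apply]
    congr 1
    ring
  have hs' : Tendsto (fun n => s (p * n) • X' n) atTop (𝓝 z) := by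
    have h1 : Tendsto (fun n : ℕ => p * n) atTop atTop := tendsto_id.const_mul_atTop' hp1
    have h2 := hs.comp h1
    refine h2.congr fun n => ?_
    simp only [Function.comp_apply, hX', hL]
    rw [mul_assoc]
  have hfs := slow_or_fast2 (lam := lam ^ p) hD2 hGhom hz0 hzG hX hs' (ξ := ξ')
    hsplp.unit (fun w => by rw [hTG]; exact hsplp.eig w) hsum
    (fun w => by rw [hTG]; exact hPs p w) (fun w => by rw [hTG]; exact hPu p w)
    (fun w => by rw [hTG]; exact hb1 w) (fun w => by rw [hTG]; exact hb2 w)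
  rcases hfs with ⟨s', C, hC⟩ | ⟨n₀, b, hb0, hslow⟩
  · left
    obtain ⟨s'', K, r, _, hr1, hr⟩ := conv_of_mul hp1 hf hz hC
    exact ⟨s'', K, r, hr1, hr⟩
  right
  intro S hSh hdim
  set Z : ℕ → Fin M → ℂ := fun n => b n • X' (n₀ + n) with hZ
  obtain ⟨hQ, hqO, hqO', hexp⟩ := slow_expansions hslow _ hsplp.roots
    (fun w => by rw [hTG]; exact hsplp.img w)
  set Q : ℕ → ℂ := fun n => ξ' (Z n - z) with hQdef
  have hQ0 : ∀ᶠ n in atTop, Q n ≠ 0 := hslow.ne
  have hev : ∀ (h : MvPolynomial (Fin M) ℂ) (k : ℕ), QE Q k fun n => eval (Z n) h := fun h k =>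
    qe_eval hQ (hexp k) h
  obtain ⟨g₀, e₂, hg₀, hg₀z, hg₀n⟩ := slow_ns hD2 hGhom hz0 hslow hQ
  have hZr : ∀ n, Z (n + 1) = (vl f)^[L] (Z n) := by
    intro n
    have := hslow.step n
    rw [this, hG, vl_itp]
  apply ap_of_classes _ L hL1
  intro c hc
  set Y : ℕ → Fin M → ℂ := fun n => (vl f)^[c] (Z n) with hY
  set w := (vl f)^[c] z with hw
  have hYc : ∀ n, Y n = b n ^ d ^ c • (vl f)^[L * (n₀ + n) + c] α := by
    intro n
    rw [hY]
    simp only [hZ]
    rw [smul_iter hf, hX']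
    simp only
    rw [← Function.iterate_add_apply, add_comm]
  have hvc : ∀ k : ℕ, Continuous ((vl f)^[k]) := by
    intro k
    apply Continuous.iterate
    apply continuous_pi
    intro i
    exact continuous_eval (f i)
  have hcl := qe_class (Z := Y) (z := w) (Q := Q) hSh hdim hGhom (ne_iter hd hl hf hz0 hz c)
    (fun n => by
      rw [hG, vl_itp, hY]
      simp only
      rw [hZr, ← Function.iterate_add_apply, ← Function.iterate_add_apply, add_comm])
    (((hvc c).tendsto z).comp hslow.lim) hQ hQ0 hqO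
    (fun h k => by
      have h1 : (fun n => eval (Y n) h) = fun n => eval (Z n) (bind₁ (itp f c) h) := by
        funext n
        rw [eval_bind, vl_itp]
      rw [h1]
      exact hev _ k) ?_
  · have hiff : ∀ n, (∀ g ∈ S, eval (Y n) g = 0) ↔
        ∀ g ∈ S, eval ((vl f)^[L * (n₀ + n) + c] α) g = 0 := by
      intro n
      rw [hYc]
      exact vanish_smul hSh (pow_ne_zero _ (hb0 n)) _
    have hmap : ∀ P : ℕ → Prop, (∀ᶠ n in atTop, P (n₀ + n)) → ∀ᶠ n in atTop, P n := by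
      intro P hP
      obtain ⟨N, hN⟩ := eventually_atTop.1 hP
      refine eventually_atTop.2 ⟨n₀ + N, fun n hn => ?_⟩
      have := hN (n - n₀) (by omega)
      rwa [Nat.add_sub_cancel' (by omega)] at this
    rcases hcl with h | h
    · left
      apply hmap
      filter_upwards [h] with n hn
      exact (hiff n).1 hn
    · right
      apply hmap
      filter_upwards [h] with n hn
      exact fun h1 => hn ((hiff n).2 h1)
  · obtain ⟨t, ht⟩ := Nat.exists_eq_add_of_le hc.le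
    refine ⟨bind₁ (itp f t) g₀, d ^ t * e₂, ?_, ?_, ?_⟩
    · exact hg₀.aeval _ (itp_hom hf t)
    · rw [eval_bind, vl_itp, hw, ← Function.iterate_add_apply, add_comm, ← ht, hzL]
      exact hg₀z
    · intro hflat
      apply hg₀n
      have h1 : ∀ n, eval (Y n) (bind₁ (itp f t) g₀) = eval (Z (n + 1)) g₀ := by
        intro n
        rw [eval_bind, vl_itp, hY]
        simp only
        rw [← Function.iterate_add_apply, add_comm, ← ht, hZr]
      intro k
      have h2 := hflat k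
      simp_rw [h1] at h2
      have h3 : (fun n => eval (Z (n + 1)) g₀) =O[atTop] fun n => Q (n + 1) ^ k :=
        h2.trans (hqO'.pow k)
      obtain ⟨K, hK⟩ := h3.bound
      refine IsBigO.of_bound K ?_
      obtain ⟨N, hN⟩ := eventually_atTop.1 hK
      refine eventually_atTop.2 ⟨N + 1, fun n hn => ?_⟩
      have := hN (n - 1) (by omega)
      rwa [Nat.sub_add_cancel (by omega)] at this

/-- **All convergent orbits**: closed sets of dimension at most one. -/
theorem main_neut {f : Fin M → MvPolynomial (Fin M) ℂ} {d l : ℕ} (hd : 2 ≤ d) (hl : 1 ≤ l)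
    (hf : ∀ i, (f i).IsHomogeneous d) {z : Fin M → ℂ} (hz0 : z ≠ 0) (hz : (vl f)^[l] z = z)
    {μ : Fin m → ℂ} {lam : ℂ} {ξ : (Fin M → ℂ) →ₗ[ℂ] ℂ} {e : Fin M → ℂ}
    (hS : Neut (linT z (itp f l)) z μ lam ξ e) (hC : Compat μ) {α : Fin M → ℂ} {s : ℕ → ℂ}
    (hs : Tendsto (fun n => s n • (vl f)^[l * n] α) atTop (𝓝 z))
    (hSZ : (linT z (itp f l)).charpoly.rootMultiplicity 0 ≤ 1 ∨ ¬ Super (fun n => (vl f)^[l * n] α) z)
    {S : Set (MvPolynomial (Fin M) ℂ)} (hSh : ∀ g ∈ S, ∃ e : ℕ, g.IsHomogeneous e)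
    (hdim : ringKrullDim (MvPolynomial (Fin M) ℂ ⧸ Ideal.span S) ≤ 2) :
    FiniteUnionAP {n : ℕ | ∀ g ∈ S, eval ((vl f)^[n] α) g = 0} := by
  have hTz : (linT z (itp f l)) z = ((d ^ l : ℕ) : ℂ) • z :=
    euler (itp_hom hf l) (by rw [vl_itp, hz])
  rcases main_slow2 hd hl hf hz0 hz hS hs with ⟨s', C, r, hr, h⟩ | h
  · exact main_curves hd hl hf hz0 hz (hS.kills hTz) (compat_cons hS.unit.ge hC) hr h hSZ hSh hdim
  · exact h S hSh hdim

/-- In the plane all closed sets are covered. -/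
theorem plane_neut {f : Fin 3 → MvPolynomial (Fin 3) ℂ} {d l : ℕ} (hd : 2 ≤ d) (hl : 1 ≤ l)
    (hf : ∀ i, (f i).IsHomogeneous d) {z : Fin 3 → ℂ} (hz0 : z ≠ 0) (hz : (vl f)^[l] z = z)
    {μ : Fin m → ℂ} {lam : ℂ} {ξ : (Fin 3 → ℂ) →ₗ[ℂ] ℂ} {e : Fin 3 → ℂ}
    (hS : Neut (linT z (itp f l)) z μ lam ξ e) (hC : Compat μ) {α : Fin 3 → ℂ} {s : ℕ → ℂ}
    (hs : Tendsto (fun n => s n • (vl f)^[l * n] α) atTop (𝓝 z))
    (hSZ : (linT z (itp f l)).charpoly.rootMultiplicity 0 ≤ 1 ∨
      ¬ Super (fun n => (vl f)^[l * n] α) z) : DMLAt f α := by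
  classical
  intro S hSh
  by_cases h0 : ∀ g ∈ S, g = 0
  · refine ⟨{(1, 0)}, ?_⟩
    ext n
    simp only [Set.mem_ofPred_eq, Finset.mem_singleton, exists_eq_left, one_mul, add_zero,
      exists_eq', iff_true]
    intro g hg
    rw [h0 g hg, map_zero]
  · push Not at h0
    obtain ⟨g, hg, hg0⟩ := h0
    refine main_neut hd hl hf hz0 hz hS hC hs hSZ hSh ?_
    have h1 := ringKrullDim_succ_le_of_surjective (Ideal.Quotient.mk (Ideal.span S))
      Ideal.Quotient.mk_surjective (r := g) (mem_nonZeroDivisors_of_ne_zero hg0)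
      (Ideal.Quotient.eq_zero_iff_mem.2 (Ideal.subset_span hg))
    have h2 : ringKrullDim (MvPolynomial (Fin 3) ℂ) = 3 := by
      rw [MvPolynomial.ringKrullDim_of_isNoetherianRing]
      simp
    rw [h2] at h1
    have h3 : ringKrullDim (MvPolynomial (Fin 3) ℂ ⧸ Ideal.span S) + 1 ≤ 2 + 1 := by
      refine h1.trans (le_of_eq ?_)
      norm_num
    exact ENat.WithBot.add_le_add_one_right_iff.1 h3

/-- the plane, with a basis of eigenvectors -/
lemma plane_neut_data {T : Module.End ℂ (Fin 3 → ℂ)} {z e e' : Fin 3 → ℂ} {D lam μ : ℂ}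
    (hT : T z = D • z) (hD : D ≠ 0) (hli : LinearIndependent ℂ ![z, e, e'])
    (he : ∃ c : ℂ, T e = lam • e + c • z) (he' : ∃ c : ℂ, T e' = μ • e' + c • z)
    (hμ : ‖μ‖ ≠ 1) (h0 : lam ≠ 0 ∨ μ ≠ 0) :
    (‖lam‖ = 1 → ∃ ξ : (Fin 3 → ℂ) →ₗ[ℂ] ℂ, Neut T z (fun _ : Fin 1 => μ) lam ξ e) ∧
      (‖lam‖ ≠ 1 → Neut T z ![lam, μ] 1 0 0) ∧ T.charpoly.rootMultiplicity 0 ≤ 1 := by
  classical
  obtain ⟨c, hc⟩ := he
  obtain ⟨c', hc'⟩ := he'
  set b := basisOfLinearIndependentOfCardEqFinrank hli (by simp) with hb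
  have hb0 : b 0 = z := by simp [hb]
  have hb1 : b 1 = e := by simp [hb]
  have hb2 : b 2 = e' := by simp [hb]
  have hv : ∀ v, v = b.coord 0 v • z + b.coord 1 v • e + b.coord 2 v • e' := by
    intro v
    conv_lhs => rw [← b.sum_repr v]
    rw [Fin.sum_univ_three, hb0, hb1, hb2]
    rfl
  have hTv : ∀ v, T v = b.coord 0 v • D • z + b.coord 1 v • (lam • e + c • z) +
      b.coord 2 v • (μ • e' + c' • z) := by
    intro v
    conv_lhs => rw [hv v]
    rw [map_add, map_add, map_smul, map_smul, map_smul, hT, hc, hc']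
  have hμv : ∀ (x : ℂ) v, x • v = x • (b.coord 0 v • z + b.coord 1 v • e + b.coord 2 v • e') := by
    intro x v
    rw [← hv v]
  refine ⟨fun hlam => ?_, fun hlam => ⟨?_, norm_one, fun v => ?_, ⟨0, by simp⟩⟩, ?_⟩
  · refine ⟨(lam - μ) • b.coord 1, fun _ => hμ, hlam, ?_, ⟨c, hc⟩⟩
    intro v
    refine ⟨b.coord 0 v * (D - μ) + b.coord 1 v * c + b.coord 2 v * c', ?_⟩
    rw [Fin.prod_univ_one, map_sub, Polynomial.aeval_X, Polynomial.aeval_C, LinearMap.sub_apply,
      Module.algebraMap_end_apply, LinearMap.smul_apply, smul_eq_mul, hTv, hμv μ v]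
    module
  · intro i
    fin_cases i
    · exact hlam
    · exact hμ
  · have h1 : Polynomial.aeval T (Polynomial.X - Polynomial.C μ) v =
        (b.coord 0 v * (D - μ) + b.coord 1 v * c + b.coord 2 v * c') • z +
          (b.coord 1 v * (lam - μ)) • e := by
      rw [map_sub, Polynomial.aeval_X, Polynomial.aeval_C, LinearMap.sub_apply,
        Module.algebraMap_end_apply, hTv, hμv μ v]
      module
    refine ⟨(b.coord 0 v * (D - μ) + b.coord 1 v * c + b.coord 2 v * c') * (D - lam) +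
      (b.coord 1 v * (lam - μ)) * c, ?_⟩
    rw [Fin.prod_univ_two]
    simp only [Matrix.cons_val_zero, Matrix.cons_val_one]
    rw [aeval_mul_apply, h1, map_sub, Polynomial.aeval_X, Polynomial.aeval_C, LinearMap.sub_apply,
      Module.algebraMap_end_apply, map_add, map_smul, map_smul, hT, hc]
    simp only [LinearMap.zero_apply, zero_smul]
    module
  · have h1 : T.charpoly = (Polynomial.X - Polynomial.C D) * (Polynomial.X - Polynomial.C lam) *
        (Polynomial.X - Polynomial.C μ) := by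
      rw [← LinearMap.charpoly_toMatrix T b]
      have hA : ∀ i j, LinearMap.toMatrix b b T i j =
          (!![D, c, c'; 0, lam, 0; 0, 0, μ] : Matrix (Fin 3) (Fin 3) ℂ) i j := by
        intro i j
        rw [LinearMap.toMatrix_apply]
        fin_cases j
        · simp only [Fin.zero_eta, Fin.isValue]
          rw [hb0, hT, ← hb0, map_smul, Module.Basis.repr_self]
          fin_cases i <;> simp
        · simp only [Fin.mk_one, Fin.isValue]
          rw [hb1, hc, ← hb1, ← hb0, map_add, map_smul, map_smul, Module.Basis.repr_self,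
            Module.Basis.repr_self]
          fin_cases i <;> simp
        · simp only [Fin.reduceFinMk, Fin.isValue]
          rw [hb2, hc', ← hb2, ← hb0, map_add, map_smul, map_smul, Module.Basis.repr_self,
            Module.Basis.repr_self]
          fin_cases i <;> simp
      have hA' : LinearMap.toMatrix b b T = !![D, c, c'; 0, lam, 0; 0, 0, μ] := by
        ext i j
        exact hA i j
      rw [hA', Matrix.charpoly_of_upperTriangular]
      · rw [Fin.prod_univ_three]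
        simp
      · intro i j hij
        have hij' : j < i := hij
        fin_cases i <;> fin_cases j <;> first | rfl | exact absurd hij' (by decide)
    rw [h1]
    have hn1 : (Polynomial.X - Polynomial.C D : Polynomial ℂ) ≠ 0 := Polynomial.X_sub_C_ne_zero D
    have hn2 : (Polynomial.X - Polynomial.C lam : Polynomial ℂ) ≠ 0 :=
      Polynomial.X_sub_C_ne_zero lam
    have hn3 : (Polynomial.X - Polynomial.C μ : Polynomial ℂ) ≠ 0 := Polynomial.X_sub_C_ne_zero μ
    rw [Polynomial.rootMultiplicity_mul (mul_ne_zero (mul_ne_zero hn1 hn2) hn3),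
      Polynomial.rootMultiplicity_mul (mul_ne_zero hn1 hn2), Polynomial.rootMultiplicity_X_sub_C,
      Polynomial.rootMultiplicity_X_sub_C, Polynomial.rootMultiplicity_X_sub_C,
      if_neg (Ne.symm hD)]
    rcases h0 with h0 | h0
    · rw [if_neg (Ne.symm h0)]
      split_ifs <;> omega
    · rw [if_neg (Ne.symm h0)]
      split_ifs <;> omega

/-- **The plane**: all convergent orbits. -/
theorem plane2 {f : Fin 3 → MvPolynomial (Fin 3) ℂ} {d l : ℕ} (hd : 2 ≤ d) (hl : 1 ≤ l)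
    (hf : ∀ i, (f i).IsHomogeneous d) {z : Fin 3 → ℂ} (hz0 : z ≠ 0) (hz : (vl f)^[l] z = z)
    {e e' : Fin 3 → ℂ} {lam μ : ℂ} (hli : LinearIndependent ℂ ![z, e, e'])
    (he : ∃ c : ℂ, linT z (itp f l) e = lam • e + c • z)
    (he' : ∃ c : ℂ, linT z (itp f l) e' = μ • e' + c • z)
    (hμ : ‖μ‖ ≠ 1) (h0 : lam ≠ 0 ∨ μ ≠ 0) (hC : Compat ![lam, μ]) {α : Fin 3 → ℂ} {s : ℕ → ℂ}
    (hs : Tendsto (fun n => s n • (vl f)^[l * n] α) atTop (𝓝 z)) : DMLAt f α := by
  have hTz : (linT z (itp f l)) z = ((d ^ l : ℕ) : ℂ) • z :=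
    euler (itp_hom hf l) (by rw [vl_itp, hz])
  have hD0 : ((d ^ l : ℕ) : ℂ) ≠ 0 := by
    have : 0 < d ^ l := by positivity
    exact_mod_cast this.ne'
  obtain ⟨h1, h2, hSZ⟩ := plane_neut_data hTz hD0 hli he he' hμ h0
  by_cases hlam : ‖lam‖ = 1
  · obtain ⟨ξ, hS⟩ := h1 hlam
    exact plane_neut hd hl hf hz0 hz hS (compat_one μ) hs (Or.inl hSZ)
  · exact plane_neut hd hl hf hz0 hz (h2 hlam) hC hs (Or.inl hSZ)

end Pool.Agent.SP82
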